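import Pool.Agent.Lib.AbcS.GridF
import Pool.Agent.Lib.AbcB.BoxV

/-!
# The relative box: the primes of `P` are free
-/

open Finset Filter Topology

namespace Pool.Agent.Lib.AbcS

open Pool.Agent.Lib.Pabc2 Pool.Agent.Lib.Pabc1 Pool.Agent.Lib.Pabc8 Pool.Agent.Lib.AbcL
open Pool.Agent.Lib.Pabc14
open Pool.Agent.Lib.AbcB (DD)

/-- The radical of the part of `m` outside `F`. -/
def rF (F : Finset ℕ) (m : ℕ) : ℕ := ∏ p ∈ m.primeFactors \ F, p

theorem rF_pos (F : Finset ℕ) (m : ℕ) : 0 < rF F m :=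
  Finset.prod_pos (fun _ hp => (Nat.prime_of_mem_primeFactors (Finset.mem_sdiff.mp hp).1).pos)

theorem wF_eq {t : ℕ × ℕ} (hI : IsT t) (F : Finset ℕ) (l : Fin 3) :
    wF F t l = Real.log (rF F (comp t l)) := by
  unfold wF rF
  rw [comp_primeFactors hI l]
  push_cast
  rw [Real.log_prod]
  intro p hp
  exact_mod_cast (Nat.prime_of_mem_primeFactors
    (Finset.mem_filter.mp (Finset.mem_sdiff.mp hp).1).1).ne_zero

/-- The radical in terms of the relative radicals. -/
theorem tw_le_wF (t : ℕ × ℕ) {P : ℕ} (hP : 1 ≤ P) :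
    tw t ≤ Real.log P + (wF P.primeFactors t 0 + wF P.primeFactors t 1 +
      wF P.primeFactors t 2) := by
  classical
  set F := P.primeFactors with hF
  have h1 : tw t = ∑ p ∈ (N t).primeFactors ∩ F, Real.log (p : ℝ) +
      ∑ p ∈ (N t).primeFactors \ F, Real.log (p : ℝ) := by
    unfold tw
    rw [add_comm]
    have h := Finset.sum_sdiff (f := fun p : ℕ => Real.log (p : ℝ))
      (Finset.inter_subset_left : (N t).primeFactors ∩ F ⊆ (N t).primeFactors)
    rw [← h, Finset.sdiff_inter_self_left]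
  have h2 : ∑ p ∈ (N t).primeFactors ∩ F, Real.log (p : ℝ) ≤ Real.log P := by
    have g1 : ∑ p ∈ (N t).primeFactors ∩ F, Real.log (p : ℝ) ≤ ∑ p ∈ F, Real.log (p : ℝ) :=
      Finset.sum_le_sum_of_subset_of_nonneg Finset.inter_subset_right
        (fun p _ _ => Real.log_natCast_nonneg p)
    have g2 : ∑ p ∈ F, Real.log (p : ℝ) = Real.log ((∏ p ∈ F, p : ℕ) : ℝ) := by
      push_cast
      rw [Real.log_prod]
      intro p hp
      exact_mod_cast (Nat.prime_of_mem_primeFactors hp).ne_zero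
    have g3 : (∏ p ∈ F, p) ≤ P := Nat.le_of_dvd (by omega) (Nat.prod_primeFactors_dvd P)
    have g4 : 0 < ∏ p ∈ F, p :=
      Finset.prod_pos (fun p hp => (Nat.prime_of_mem_primeFactors hp).pos)
    refine g1.trans (g2.le.trans ?_)
    apply Real.log_le_log
    · exact_mod_cast g4
    · exact_mod_cast g3
  have h3 : ∑ p ∈ (N t).primeFactors \ F, Real.log (p : ℝ) =
      wF F t 0 + wF F t 1 + wF F t 2 := by
    have g1 := wo_eq F t (i := 1) (j := 2) (m := 0) (by decide) (by decide) (by decide)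
    rw [add_assoc, ← g1]
    unfold wo wF oprimes
    rw [← Finset.sum_union]
    · rw [← Finset.union_sdiff_distrib]
      congr 2
      exact (Finset.filter_union_filter_not_eq (fun p => lab t p = 0) _).symm
    · rw [Finset.disjoint_left]
      intro p hp hq
      have e1 := (Finset.mem_filter.mp (Finset.mem_sdiff.mp hp).1).2
      have e2 := (Finset.mem_filter.mp (Finset.mem_sdiff.mp hq).1).2
      exact e2 e1
  rw [h1, h3]
  linarith

/-- The data of a relative box. -/
theorem box_dataF {t : ℕ × ℕ} (hI : IsT t) {P A B C : ℕ} (hP : 1 ≤ P)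
    (hA : rF P.primeFactors t.1 ≤ A) (hB : rF P.primeFactors t.2 ≤ B)
    (hC : rF P.primeFactors (t.1 + t.2) ≤ C) :
    rd t ≤ P * A * B * C ∧ ∃ l : Fin 3, wo P.primeFactors t l ≤ Real.log (DD A B C) := by
  set F := P.primeFactors with hF
  have hA1 : 1 ≤ A := (rF_pos _ _).trans_le hA
  have hB1 : 1 ≤ B := (rF_pos _ _).trans_le hB
  have hC1 : 1 ≤ C := (rF_pos _ _).trans_le hC
  have hA' : (0 : ℝ) < A := by exact_mod_cast hA1
  have hB' : (0 : ℝ) < B := by exact_mod_cast hB1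
  have hC' : (0 : ℝ) < C := by exact_mod_cast hC1
  have hP' : (0 : ℝ) < P := by exact_mod_cast hP
  have e0 : wF F t 0 ≤ Real.log A := by
    rw [wF_eq hI]
    apply Real.log_le_log
    · exact_mod_cast rF_pos _ _
    · exact_mod_cast hA
  have e1 : wF F t 1 ≤ Real.log B := by
    rw [wF_eq hI]
    apply Real.log_le_log
    · exact_mod_cast rF_pos _ _
    · exact_mod_cast hB
  have e2 : wF F t 2 ≤ Real.log C := by
    rw [wF_eq hI]
    apply Real.log_le_log
    · exact_mod_cast rF_pos _ _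
    · exact_mod_cast hC
  refine ⟨?_, ?_⟩
  · have h1 : Real.log (rd t) ≤ Real.log ((P * A * B * C : ℕ) : ℝ) := by
      rw [AbcB.log_rd]
      push_cast
      rw [Real.log_mul (by positivity) hC'.ne', Real.log_mul (by positivity) hB'.ne',
        Real.log_mul hP'.ne' hA'.ne']
      have := tw_le_wF t hP
      rw [← hF] at this
      linarith
    have h2 : (0 : ℝ) < rd t := by exact_mod_cast rd_pos t
    have h3 : (0 : ℝ) < ((P * A * B * C : ℕ) : ℝ) := by push_cast; positivity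
    exact_mod_cast (Real.log_le_log_iff h2 h3).1 h1
  · unfold DD
    rcases max_cases (A : ℝ) (max (B : ℝ) C) with ⟨h, _⟩ | ⟨h, _⟩
    · refine ⟨0, ?_⟩
      rw [h, wo_eq F t (i := 1) (j := 2) (by decide) (by decide) (by decide)]
      have e : (A : ℝ) * B * C / A = B * C := by field_simp
      rw [e, Real.log_mul hB'.ne' hC'.ne']
      linarith
    · rcases max_cases (B : ℝ) (C : ℝ) with ⟨h', _⟩ | ⟨h', _⟩
      · refine ⟨1, ?_⟩
        rw [h, h', wo_eq F t (i := 0) (j := 2) (by decide) (by decide) (by decide)]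
        have e : (A : ℝ) * B * C / B = A * C := by field_simp
        rw [e, Real.log_mul hA'.ne' hC'.ne']
        linarith
      · refine ⟨2, ?_⟩
        rw [h, h', wo_eq F t (i := 0) (j := 1) (by decide) (by decide) (by decide)]
        have e : (A : ℝ) * B * C / C = A * B := by field_simp
        rw [e, Real.log_mul hA'.ne' hB'.ne']
        linarith

/-- The condition of a relative box. -/
def InBoxF (F : Finset ℕ) (A B C : ℕ) (t : ℕ × ℕ) : Prop :=
  0 < t.1 ∧ 0 < t.2 ∧ Nat.Coprime t.1 t.2 ∧ rF F t.1 ≤ A ∧ rF F t.2 ≤ B ∧ rF F (t.1 + t.2) ≤ C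

theorem InBoxF.swap {F : Finset ℕ} {A B C : ℕ} {t : ℕ × ℕ} (h : InBoxF F A B C t) :
    InBoxF F B A C t.swap := by
  obtain ⟨h1, h2, h3, h4, h5, h6⟩ := h
  refine ⟨h2, h1, h3.symm, h5, h4, ?_⟩
  simp only [Prod.fst_swap, Prod.snd_swap]
  rw [add_comm t.2 t.1]
  exact h6

/-- From ordered to unordered pairs. -/
theorem unorderedF {F : Finset ℕ} {A B C : ℕ} {P : ℕ × ℕ → Prop} (hP : ∀ t, P t → P t.swap)
    {X : ℝ}
    (h : ∀ A' B' : ℕ, (A' = A ∧ B' = B) ∨ (A' = B ∧ B' = A) → ∀ T : Finset (ℕ × ℕ),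
      (∀ t ∈ T, IsT t ∧ InBoxF F A' B' C t ∧ P t) → (T.card : ℝ) ≤ X)
    (T : Finset (ℕ × ℕ)) (hT : ∀ t ∈ T, InBoxF F A B C t ∧ P t) : (T.card : ℝ) ≤ 2 * X := by
  classical
  have h1 := h A B (Or.inl ⟨rfl, rfl⟩) (T.filter (fun t => t.1 ≤ t.2)) (by
    intro t ht'
    rw [Finset.mem_filter] at ht'
    obtain ⟨a1, a2⟩ := hT t ht'.1
    exact ⟨⟨a1.1, ht'.2, a1.2.2.1⟩, a1, a2⟩)
  have h2 := h B A (Or.inr ⟨rfl, rfl⟩) ((T.filter (fun t => ¬ t.1 ≤ t.2)).image Prod.swap) (by
    intro t ht'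
    rw [Finset.mem_image] at ht'
    obtain ⟨s, hs, rfl⟩ := ht'
    rw [Finset.mem_filter] at hs
    obtain ⟨a1, a2⟩ := hT s hs.1
    refine ⟨⟨a1.2.1, ?_, a1.2.2.1.symm⟩, a1.swap, hP s a2⟩
    simp only [Prod.fst_swap, Prod.snd_swap]
    omega)
  rw [Finset.card_image_of_injective _ Prod.swap_injective] at h2
  have h3 : (T.card : ℝ) = (T.filter (fun t => t.1 ≤ t.2)).card +
      (T.filter (fun t => ¬ t.1 ≤ t.2)).card := by
    exact_mod_cast (Finset.card_filter_add_card_filter_not (s := T) _).symm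
  linarith

/-- `4 ^ ω(P)` is at most `C P ^ ε`. -/
theorem four_pow_le (ε : ℝ) (hε : 0 < ε) : ∃ C : ℝ, 1 ≤ C ∧ ∀ P : ℕ, 1 ≤ P →
    (4 : ℝ) ^ P.primeFactors.card ≤ C * (P : ℝ) ^ ε := by
  obtain ⟨C, hC1, hC⟩ := Pabc11.cb_pow_card_le 4 ε (by norm_num) hε
  refine ⟨C, hC1, fun P hP => ?_⟩
  refine (hC P.primeFactors (fun p hp => (Nat.prime_of_mem_primeFactors hp).two_le)).trans ?_
  apply mul_le_mul_of_nonneg_left _ (by linarith)
  apply Real.rpow_le_rpow (Finset.prod_nonneg (fun p _ => Nat.cast_nonneg p)) _ hε.le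
  have g3 : (∏ p ∈ P.primeFactors, p) ≤ P :=
    Nat.le_of_dvd (by omega) (Nat.prod_primeFactors_dvd P)
  rw [← Nat.cast_prod]
  exact_mod_cast g3

/-- All triples of a relative box. -/
theorem box_allF (ε : ℝ) (hε : 0 < ε) : ∃ K : ℝ, 1 ≤ K ∧
    ∀ (P A B C : ℕ) (T : Finset (ℕ × ℕ)), 1 ≤ P → 1 ≤ A → 1 ≤ B → 1 ≤ C →
      (∀ t ∈ T, InBoxF P.primeFactors A B C t) →
      (T.card : ℝ) ≤ K * DD A B C * ((P : ℝ) * A * B * C) ^ ε := by
  classical
  obtain ⟨K, hK, hfib⟩ := Pabc10.fibre_all (ε / 2) (by positivity)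
  obtain ⟨C4, hC4, h4⟩ := four_pow_le (ε / 2) (by positivity)
  refine ⟨6 * K * C4, by nlinarith, ?_⟩
  intro P A B C T hP hA hB hC hT
  have hA' : (1 : ℝ) ≤ A := by exact_mod_cast hA
  have hB' : (1 : ℝ) ≤ B := by exact_mod_cast hB
  have hC' : (1 : ℝ) ≤ C := by exact_mod_cast hC
  have hP' : (1 : ℝ) ≤ P := by exact_mod_cast hP
  obtain ⟨R, hR⟩ : ∃ R : ℝ, R = (P : ℝ) * A * B * C := ⟨_, rfl⟩
  have hDD := AbcB.one_le_DD hA hB hC
  have hRP : (P : ℝ) ≤ R := by
    rw [hR]
    have h1 : (P : ℝ) * 1 ≤ P * A := mul_le_mul_of_nonneg_left hA' (by linarith)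
    have h2 : (P : ℝ) * A * 1 ≤ P * A * B := mul_le_mul_of_nonneg_left hB' (by positivity)
    have h3 : (P : ℝ) * A * B * 1 ≤ P * A * B * C := mul_le_mul_of_nonneg_left hC' (by positivity)
    linarith
  have hR0 : 0 < R := by linarith
  have hR1 : 1 ≤ R := by linarith
  have h4P : (4 : ℝ) ^ P.primeFactors.card ≤ C4 * R ^ (ε / 2) := by
    refine (h4 P hP).trans ?_
    apply mul_le_mul_of_nonneg_left _ (by linarith)
    exact Real.rpow_le_rpow (by linarith) hRP (by positivity)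
  rw [← hR]
  have key := unorderedF (F := P.primeFactors) (A := A) (B := B) (C := C) (P := fun _ => True)
    (X := 3 * (DD A B C * (4 : ℝ) ^ P.primeFactors.card * (K * R ^ (ε / 2))))
    (fun t _ => trivial) (by
      intro A' B' hAB T' hT'
      have hD : DD A' B' C = DD A B C := by
        rcases hAB with ⟨rfl, rfl⟩ | ⟨rfl, rfl⟩
        · rfl
        · exact AbcB.DD_swap _ _ _
      have hN : ((P * A' * B' * C : ℕ) : ℝ) = R := by
        rw [hR]
        rcases hAB with ⟨rfl, rfl⟩ | ⟨rfl, rfl⟩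
        · push_cast; ring
        · push_cast; ring
      have hpos : 1 ≤ P * A' * B' * C := by
        rcases hAB with ⟨rfl, rfl⟩ | ⟨rfl, rfl⟩
        · exact Nat.mul_pos (Nat.mul_pos (Nat.mul_pos hP hA) hB) hC
        · exact Nat.mul_pos (Nat.mul_pos (Nat.mul_pos hP hB) hA) hC
      have hdat : ∀ t, ∃ l : Fin 3, t ∈ T' → rd t ≤ P * A' * B' * C ∧
          wo P.primeFactors t l ≤ Real.log (DD A B C) := by
        intro t
        by_cases ht' : t ∈ T'
        · obtain ⟨hI, hb, -⟩ := hT' t ht'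
          obtain ⟨g1, l, g2⟩ := box_dataF hI hP hb.2.2.2.1 hb.2.2.2.2.1 hb.2.2.2.2.2
          rw [hD] at g2
          exact ⟨l, fun _ => ⟨g1, g2⟩⟩
        · exact ⟨0, fun h => absurd h ht'⟩
      choose L hL using hdat
      set f : ℕ × ℕ → Fin 3 × Finset ℕ := fun t => (L t, oprimes t (L t)) with hf
      set SS := T'.image (fun t => oprimes t (L t)) with hSS
      have hSSc : (SS.card : ℝ) ≤ (2 : ℝ) ^ P.primeFactors.card * DD A B C := by
        apply card_setsF (by linarith) P.primeFactors SS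
        intro S hS
        obtain ⟨t, ht', rfl⟩ := Finset.mem_image.mp hS
        have hpr : ∀ p ∈ oprimes t (L t), p.Prime := fun p hp =>
          Nat.prime_of_mem_primeFactors (Finset.mem_filter.mp hp).1
        refine ⟨hpr, ?_⟩
        have g1 := (hL t ht').2
        unfold wo at g1
        have g2 : ∑ p ∈ oprimes t (L t) \ P.primeFactors, Real.log (p : ℝ) =
            Real.log (∏ p ∈ oprimes t (L t) \ P.primeFactors, (p : ℝ)) := by
          rw [Real.log_prod]
          intro p hp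
          exact_mod_cast (hpr p (Finset.mem_sdiff.mp hp).1).ne_zero
        rw [g2] at g1
        have g3 : (0 : ℝ) < ∏ p ∈ oprimes t (L t) \ P.primeFactors, (p : ℝ) := by
          apply Finset.prod_pos
          intro p hp
          exact_mod_cast (hpr p (Finset.mem_sdiff.mp hp).1).pos
        exact (Real.log_le_log_iff g3 (by linarith)).1 g1
      have hmaps : ∀ t ∈ T', f t ∈ (Finset.univ : Finset (Fin 3)) ×ˢ SS := by
        intro t ht'
        rw [hf, Finset.mem_product]
        exact ⟨Finset.mem_univ _, Finset.mem_image_of_mem _ ht'⟩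
      have hfibre : ∀ y ∈ (Finset.univ : Finset (Fin 3)) ×ˢ SS,
          ((T'.filter (fun t => f t = y)).card : ℝ) ≤ K * R ^ (ε / 2) := by
        intro y hy
        rcases (T'.filter (fun t => f t = y)).eq_empty_or_nonempty with he | ⟨t0, ht0⟩
        · rw [he, Finset.card_empty, Nat.cast_zero]
          positivity
        rw [← hN]
        rw [Finset.mem_filter] at ht0
        have hy2 : y.2 = oprimes t0 (L t0) := by rw [← ht0.2]
        apply hfib (P * A' * B' * C) y.2 y.1 _ hpos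
        · rw [hy2]
          intro p hp
          exact Nat.prime_of_mem_primeFactors (Finset.mem_filter.mp hp).1
        · rw [hy2]
          have g1 : (∏ p ∈ oprimes t0 (L t0), p) ≤ rd t0 := by
            unfold rd
            apply Finset.prod_le_prod_of_subset_of_one_le' (Finset.filter_subset _ _)
            intro p hp _
            exact (Nat.prime_of_mem_primeFactors hp).one_lt.le
          exact_mod_cast g1.trans (hL t0 ht0.1).1
        · intro t ht'
          rw [Finset.mem_filter] at ht'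
          obtain ⟨hI, hb, -⟩ := hT' t ht'.1
          refine ⟨hI, (hL t ht'.1).1, ?_⟩
          have e1 : y.1 = L t := by rw [← ht'.2]
          have e2 : y.2 = oprimes t (L t) := by rw [← ht'.2]
          rw [e1, e2]
          exact Finset.Subset.refl _
      rw [Finset.card_eq_sum_card_fiberwise (f := f) hmaps]
      push_cast
      refine (Finset.sum_le_sum hfibre).trans ?_
      rw [Finset.sum_const, Finset.card_product, Finset.card_univ, Fintype.card_fin,
        nsmul_eq_mul]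
      push_cast
      have h24 : (2 : ℝ) ^ P.primeFactors.card ≤ (4 : ℝ) ^ P.primeFactors.card :=
        pow_le_pow_left₀ (by norm_num) (by norm_num) _
      have h5 : (SS.card : ℝ) ≤ DD A B C * (4 : ℝ) ^ P.primeFactors.card := by
        refine hSSc.trans ?_
        rw [mul_comm]
        exact mul_le_mul_of_nonneg_left h24 (by linarith)
      have h6 : 0 ≤ K * R ^ (ε / 2) := by positivity
      calc (3 : ℝ) * SS.card * (K * R ^ (ε / 2)) = 3 * (SS.card * (K * R ^ (ε / 2))) := by ring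
        _ ≤ 3 * (DD A B C * (4 : ℝ) ^ P.primeFactors.card * (K * R ^ (ε / 2))) := by
            apply mul_le_mul_of_nonneg_left _ (by norm_num)
            exact mul_le_mul_of_nonneg_right h5 h6) T (fun t ht' => ⟨hT t ht', trivial⟩)
  refine key.trans ?_
  have h7 : 0 ≤ DD A B C * (K * R ^ (ε / 2)) := by
    have : 0 ≤ DD A B C := by linarith
    positivity
  calc 2 * (3 * (DD A B C * (4 : ℝ) ^ P.primeFactors.card * (K * R ^ (ε / 2))))
      = 6 * ((4 : ℝ) ^ P.primeFactors.card * (DD A B C * (K * R ^ (ε / 2)))) := by ring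
    _ ≤ 6 * ((C4 * R ^ (ε / 2)) * (DD A B C * (K * R ^ (ε / 2)))) := by
        apply mul_le_mul_of_nonneg_left _ (by norm_num)
        exact mul_le_mul_of_nonneg_right h4P h7
    _ = 6 * K * C4 * DD A B C * (R ^ (ε / 2) * R ^ (ε / 2)) := by ring
    _ = 6 * K * C4 * DD A B C * R ^ ε := by
        rw [← Real.rpow_add hR0]
        congr 2
        ring

/-- The violators in a relative box. -/
theorem box_violF (ε : ℝ) (hε : 0 < ε) : ∃ K M : ℝ, 1 ≤ K ∧ 1 ≤ M ∧
    ∀ (P A B C : ℕ) (T : Finset (ℕ × ℕ)), 1 ≤ P → 1 ≤ A → 1 ≤ B → 1 ≤ C →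
      (∀ t ∈ T, InBoxF P.primeFactors A B C t ∧ M * Real.log (rd t) ≤ ht t) →
      (T.card : ℝ) ≤ K * Real.sqrt (DD A B C) * ((P : ℝ) * A * B * C) ^ ε := by
  classical
  obtain ⟨K, M, hK, hM, h⟩ := viol_isTF (ε / 2) (by positivity)
  obtain ⟨C4, hC4, h4⟩ := four_pow_le (ε / 2) (by positivity)
  refine ⟨2 * K * C4, M, by nlinarith, hM, ?_⟩
  intro P A B C T hP hA hB hC hT
  have hA' : (1 : ℝ) ≤ A := by exact_mod_cast hA
  have hB' : (1 : ℝ) ≤ B := by exact_mod_cast hB
  have hC' : (1 : ℝ) ≤ C := by exact_mod_cast hC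
  have hP' : (1 : ℝ) ≤ P := by exact_mod_cast hP
  obtain ⟨R, hR⟩ : ∃ R : ℝ, R = (P : ℝ) * A * B * C := ⟨_, rfl⟩
  have hDD := AbcB.one_le_DD hA hB hC
  have hRP : (P : ℝ) ≤ R := by
    rw [hR]
    have h1 : (P : ℝ) * 1 ≤ P * A := mul_le_mul_of_nonneg_left hA' (by linarith)
    have h2 : (P : ℝ) * A * 1 ≤ P * A * B := mul_le_mul_of_nonneg_left hB' (by positivity)
    have h3 : (P : ℝ) * A * B * 1 ≤ P * A * B * C := mul_le_mul_of_nonneg_left hC' (by positivity)
    linarith
  have hR0 : 0 < R := by linarith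
  have h4P : (4 : ℝ) ^ P.primeFactors.card ≤ C4 * R ^ (ε / 2) := by
    refine (h4 P hP).trans ?_
    apply mul_le_mul_of_nonneg_left _ (by linarith)
    exact Real.rpow_le_rpow (by linarith) hRP (by positivity)
  rw [← hR]
  have h1 := unorderedF (F := P.primeFactors) (A := A) (B := B) (C := C)
    (P := fun t => M * Real.log (rd t) ≤ ht t)
    (X := K * (4 : ℝ) ^ P.primeFactors.card * Real.sqrt (DD A B C) * R ^ (ε / 2))
    (fun t ht' => by
      rw [AbcB.rd_swap, AbcB.ht_swap]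
      exact ht') (by
      intro A' B' hAB T' hT'
      have hD : DD A' B' C = DD A B C := by
        rcases hAB with ⟨rfl, rfl⟩ | ⟨rfl, rfl⟩
        · rfl
        · exact AbcB.DD_swap _ _ _
      have hN : ((P * A' * B' * C : ℕ) : ℝ) = R := by
        rw [hR]
        rcases hAB with ⟨rfl, rfl⟩ | ⟨rfl, rfl⟩
        · push_cast; ring
        · push_cast; ring
      have hpos : 1 ≤ P * A' * B' * C := by
        rcases hAB with ⟨rfl, rfl⟩ | ⟨rfl, rfl⟩
        · exact Nat.mul_pos (Nat.mul_pos (Nat.mul_pos hP hA) hB) hC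
        · exact Nat.mul_pos (Nat.mul_pos (Nat.mul_pos hP hB) hA) hC
      have h2 := h (P * A' * B' * C) P.primeFactors (DD A B C) T' hpos hDD (by
        intro t ht'
        obtain ⟨hI, hb, hv⟩ := hT' t ht'
        obtain ⟨g1, g2⟩ := box_dataF hI hP hb.2.2.2.1 hb.2.2.2.2.1 hb.2.2.2.2.2
        rw [hD] at g2
        exact ⟨hI, g1, hv, g2⟩)
      rw [hN] at h2
      exact h2) T hT
  refine h1.trans ?_
  have h7 : 0 ≤ Real.sqrt (DD A B C) * R ^ (ε / 2) := by positivity
  calc 2 * (K * (4 : ℝ) ^ P.primeFactors.card * Real.sqrt (DD A B C) * R ^ (ε / 2))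
      = 2 * K * ((4 : ℝ) ^ P.primeFactors.card * (Real.sqrt (DD A B C) * R ^ (ε / 2))) := by ring
    _ ≤ 2 * K * ((C4 * R ^ (ε / 2)) * (Real.sqrt (DD A B C) * R ^ (ε / 2))) := by
        apply mul_le_mul_of_nonneg_left _ (by linarith)
        exact mul_le_mul_of_nonneg_right h4P h7
    _ = 2 * K * C4 * Real.sqrt (DD A B C) * (R ^ (ε / 2) * R ^ (ε / 2)) := by ring
    _ = 2 * K * C4 * Real.sqrt (DD A B C) * R ^ ε := by
        rw [← Real.rpow_add hR0]
        congr 2
        ring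

end Pool.Agent.Lib.AbcS
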