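import Pool.Agent.Lib.Pabc14.CountBound

/-!
# The count in terms of the energies of the slots, with a set of fixed primes
-/

open Finset

namespace Pool.Agent.Lib.AbcS

open Pool.Agent.Lib.Pabc2 Pool.Agent.Lib.Pabc1 Pool.Agent.Lib.Pabc8 Pool.Agent.Lib.Pabc14

/-- The count in terms of the energies of the slots; the primes of `F0` are fixed. -/
theorem count_slots {ι : Type*} [Fintype ι] [DecidableEq ι] (D : ℕ)
    (hι : Fintype.card ι ≤ 2 ^ (D + 1)) (q : ℕ) (hq : 0 < q) (l : Fin 3) (slot : ℕ → ι)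
    (side : ι → Bool) (e : ℕ → ℕ) (y : ι → ℝ) (lam : ℝ) (hlam0 : 0 ≤ lam)
    (hlam : 2 * lam < Real.log q) (T : Finset (ℕ × ℕ)) (Hv : ℕ × ℕ → Finset ℕ) (F0 : Finset ℕ)
    (hT : ∀ t ∈ T, IsT t ∧ q ∣ comp t l ∧ Hv t ⊆ oprimes t l ∧ (∀ p ∈ Hv t, e p ≤ ex t p) ∧
      (∀ p ∈ Hv t, (side (slot p) = true ↔ lab t p = lM l)) ∧
      ∑ p ∈ oprimes t l \ Hv t, (ex t p : ℝ) * Real.log p +
        ∑ p ∈ Hv t, ((ex t p : ℝ) - e p) * Real.log p ≤ lam ∧ F0 ⊆ Hv t ∧
      ∀ s, ∑ p ∈ (Hv t \ F0).filter (fun p => slot p = s), Real.log (p : ℝ) ≤ y s) :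
    (T.card : ℝ) ^ (2 ^ (D + 1)) ≤
      ∏ s, (energy (Lt q (2 ^ (D + 1) * lam)) (fun z => cu q (Ex e z)) (slotSet q slot (y s) s)
        (2 ^ D) : ℝ) := by
  classical
  have hprime : ∀ t ∈ T, ∀ p ∈ Hv t, p.Prime := by
    intro t ht p hp
    have h1 := (hT t ht).2.2.1 hp
    unfold oprimes at h1
    exact Nat.prime_of_mem_primeFactors (Finset.mem_filter.mp h1).1
  have hlab : ∀ t ∈ T, ∀ p ∈ Hv t, lab t p ≠ l := by
    intro t ht p hp
    have h1 := (hT t ht).2.2.1 hp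
    unfold oprimes at h1
    exact (Finset.mem_filter.mp h1).2
  have hcop : ∀ t ∈ T, ∀ p ∈ Hv t, p.Coprime q := by
    intro t ht p hp
    rw [(hprime t ht p hp).coprime_iff_not_dvd]
    intro hd
    exact hlab t ht p hp (lab_of_dvd (hT t ht).1 (hprime t ht p hp) (hd.trans (hT t ht).2.1))
  have hprime' : ∀ t ∈ T, ∀ p ∈ Hv t \ F0, p.Prime := fun t ht p hp =>
    hprime t ht p (Finset.mem_sdiff.mp hp).1
  have hcop' : ∀ t ∈ T, ∀ p ∈ Hv t \ F0, p.Coprime q := fun t ht p hp =>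
    hcop t ht p (Finset.mem_sdiff.mp hp).1
  have hinj : Set.InjOn (fun t => csZ slot (Hv t \ F0)) (T : Set (ℕ × ℕ)) := by
    intro t ht t' ht' heq
    rw [Finset.mem_coe] at ht ht'
    have hHH0 : Hv t \ F0 = Hv t' \ F0 :=
      csZ_inj slot (hprime' t ht) (hprime' t' ht') (fun s => congrFun heq s)
    obtain ⟨a1, a2, a3, a4, a5, a6, a7, a8⟩ := hT t ht
    obtain ⟨b1, b2, b3, b4, b5, b6, b7, b8⟩ := hT t' ht'
    have hHH : Hv t = Hv t' := by
      rw [← Finset.sdiff_union_of_subset a7, ← Finset.sdiff_union_of_subset b7, hHH0]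
    have hM : (Hv t).filter (fun p => lab t p = lM l) =
        (Hv t').filter (fun p => lab t' p = lM l) := by
      rw [← hHH]
      apply Finset.filter_congr
      intro p hp
      rw [← a5 p hp, ← b5 p (hHH ▸ hp)]
    have hZ : (Hv t).filter (fun p => lab t p = lZ l) =
        (Hv t').filter (fun p => lab t' p = lZ l) := by
      rw [← cs_filter_lZ (hlab t ht), ← cs_filter_lZ (hlab t' ht'), ← hHH]
      apply Finset.filter_congr
      intro p hp
      rw [← a5 p hp, ← b5 p (hHH ▸ hp)]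
    refine rel_inj a1 b1 hq a2 b2 a3 b3 a4 b4 a6 b6 hlam ?_ ?_
    · unfold apart
      rw [hM]
    · unfold apart
      rw [hZ]
  have hcard : (T.image (fun t => csZ slot (Hv t \ F0))).card = T.card :=
    Finset.card_image_of_injOn hinj
  -- the constant
  set g : ℕ → (ZMod q)ˣ := fun p =>
    if side (slot p) = true then cu q (p ^ e p) else (cu q (p ^ e p))⁻¹ with hg
  have hprodall : ∀ H : Finset ℕ, (∀ p ∈ H, p.Prime) → (∀ p ∈ H, p.Coprime q) →
      ∏ s, csG q side e s (csZ slot H s) = ∏ p ∈ H, g p := by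
    intro H hH hHq
    rw [← Finset.prod_fiberwise H slot]
    apply Finset.prod_congr rfl
    intro s _
    exact csG_csZ q slot side e hH hHq s
  have hmain := tree_bound (fun j => Lt q (2 ^ j * lam)) (by
    intro j a ha b hb
    have h1 := Lt_mul_inv ha hb
    have h2 : (2 : ℝ) ^ j * lam + 2 ^ j * lam = 2 ^ (j + 1) * lam := by ring
    rw [h2] at h1
    exact h1) D hι (fun s => slotSet q slot (y s) s) (csG q side e)
    (sgu q l * ∏ p ∈ F0, g p)
    (T.image (fun t => csZ slot (Hv t \ F0))) (by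
      intro z hz
      obtain ⟨t, ht, rfl⟩ := Finset.mem_image.mp hz
      obtain ⟨a1, a2, a3, a4, a5, a6, a7, a8⟩ := hT t ht
      refine ⟨fun s => csZ_mem slot (hprime' t ht) (hcop' t ht) s (a8 s), ?_⟩
      have h1 := rel_light (e := e) a1 hq a2 a3 a4 a6
      rw [← cs_prod_csG q slot side e (hprime t ht) (hcop t ht) (hlab t ht) a5,
        hprodall (Hv t) (hprime t ht) (hcop t ht)] at h1
      show sgu q l * (∏ p ∈ F0, g p) * ∏ s, csG q side e s (csZ slot (Hv t \ F0) s) ∈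
        Lt q (2 ^ 0 * lam)
      rw [hprodall (Hv t \ F0) (hprime' t ht) (hcop' t ht), pow_zero, one_mul, mul_assoc,
        mul_comm (∏ p ∈ F0, g p), Finset.prod_sdiff a7]
      exact h1)
  rw [hcard] at hmain
  refine hmain.trans (le_of_eq ?_)
  apply Finset.prod_congr rfl
  intro s _
  congr 1
  by_cases hs : side s = true
  · have h1 : csG q side e s = fun z => cu q (Ex e z) := by
      funext z
      unfold csG
      rw [if_pos hs]
    rw [h1]
  · have h1 : csG q side e s = fun z => (cu q (Ex e z))⁻¹ := by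
      funext z
      unfold csG
      rw [if_neg hs]
    rw [h1]
    exact energy_inv _ (fun z => cu q (Ex e z)) _ _

/-- The count with fixed primes and with constrained slots. -/
theorem count_bound {ι : Type*} [Fintype ι] [DecidableEq ι] (D : ℕ)
    (hι : Fintype.card ι ≤ 2 ^ (D + 1)) (q : ℕ) (hq : 0 < q) (l : Fin 3) (slot : ℕ → ι)
    (side : ι → Bool) (e : ℕ → ℕ) (y : ι → ℝ) (lam : ℝ) (hlam0 : 0 ≤ lam)
    (hlam : 2 * lam < Real.log q) (T : Finset (ℕ × ℕ)) (Hv : ℕ × ℕ → Finset ℕ) (F0 : Finset ℕ)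
    (hT : ∀ t ∈ T, IsT t ∧ q ∣ comp t l ∧ Hv t ⊆ oprimes t l ∧ (∀ p ∈ Hv t, e p ≤ ex t p) ∧
      (∀ p ∈ Hv t, (side (slot p) = true ↔ lab t p = lM l)) ∧
      ∑ p ∈ oprimes t l \ Hv t, (ex t p : ℝ) * Real.log p +
        ∑ p ∈ Hv t, ((ex t p : ℝ) - e p) * Real.log p ≤ lam ∧ F0 ⊆ Hv t ∧
      ∀ s, ∑ p ∈ (Hv t \ F0).filter (fun p => slot p = s), Real.log (p : ℝ) ≤ y s)
    (fr : Finset ι) (r : ι → ℕ) (κ : ι → ℝ) (Δ : ℝ) (hΔ1 : 1 ≤ Δ) (h5 : 1000 ≤ Real.log q)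
    (hc : ∀ s ∉ fr, 0 ≤ κ s ∧ κ s ≤ 1 ∧ 1 ≤ r s ∧ 1 ≤ 2 ^ D * y s ∧
      960 * (2 ^ D * y s) ≤ Real.log q ∧
      192 * (κ s * r s * (2 ^ D * y s) + 2 ^ (D + 1) * lam) ≤ Real.log q ∧
      (r s : ℝ) ≤ 2 * (κ s * r s * (2 ^ D * y s) + 2 ^ (D + 1) * lam) ∧
      (∀ p, slot p = s → r s ≤ e p ∧ (e p : ℝ) ≤ (1 + κ s) * r s) ∧
      ∀ k : ℕ, 0 < k → Real.log k ≤ 2 ^ D * y s → (k.divisors.card : ℝ) ≤ Δ) :
    (T.card : ℝ) ≤ Real.exp ((∑ s ∈ fr, 2 ^ (D + 1) * y s +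
      ∑ s ∈ frᶜ, (XX q (r s) (κ s) (2 ^ D * y s) (2 ^ (D + 1) * lam) + 2 ^ D * y s +
        2 ^ D * Real.log Δ)) / 2 ^ (D + 1)) := by
  classical
  have h1 := count_slots D hι q hq l slot side e y lam hlam0 hlam T Hv F0 hT
  have hW : (0 : ℝ) < 2 ^ (D + 1) := by positivity
  have hΔ0 : 0 < Δ := by linarith
  set E : ι → ℝ := fun s => (energy (Lt q (2 ^ (D + 1) * lam)) (fun z => cu q (Ex e z))
    (slotSet q slot (y s) s) (2 ^ D) : ℝ) with hE
  have hE0 : ∀ s, 0 ≤ E s := fun s => Nat.cast_nonneg _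
  have hfr : ∀ s, s ∈ fr → E s ≤ Real.exp (2 ^ (D + 1) * y s) := by
    intro s _
    have h2 := energy_trivial (Lt q (2 ^ (D + 1) * lam)) (fun z => cu q (Ex e z))
      (slotSet q slot (y s) s) (2 ^ D)
    have h3 : E s ≤ ((slotSet q slot (y s) s).card : ℝ) ^ (2 * 2 ^ D) := by
      simp only [hE]
      exact_mod_cast h2
    refine h3.trans ?_
    refine (pow_le_pow_left₀ (Nat.cast_nonneg _) (slotSet_card_le q slot (y s) s) _).trans ?_
    rw [← Real.exp_nat_mul]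
    apply le_of_eq
    congr 1
    push_cast
    ring
  have hcs : ∀ s, s ∉ fr → E s ≤ Real.exp (XX q (r s) (κ s) (2 ^ D * y s) (2 ^ (D + 1) * lam) +
      2 ^ D * y s + 2 ^ D * Real.log Δ) := by
    intro s hs
    obtain ⟨c1, c2, c3, c4, c5, c6, c7, c8, c9⟩ := hc s hs
    have h2 := energy_le q (r s) e (κ s) (y s) (2 ^ (D + 1) * lam) Δ (2 ^ D) hq c1 c2 c3
      (by push_cast; exact c4) (by positivity) (by push_cast; exact c5) (by push_cast; exact c6)
      (by push_cast; exact c7) h5 (slotSet q slot (y s) s) (by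
        intro z hz
        obtain ⟨g1, g2, g3, g4⟩ := mem_slotSet_facts hz
        exact ⟨g1, g2, fun p hp => c8 p (g3 p hp), g4⟩) (by push_cast; exact c9)
    rw [show ((2 ^ D : ℕ) : ℝ) = 2 ^ D by push_cast; rfl] at h2
    have h2' : E s ≤ Real.exp (XX q (r s) (κ s) (2 ^ D * y s) (2 ^ (D + 1) * lam)) *
        ((slotSet q slot (y s) s).card : ℝ) ^ (2 ^ D) * Δ ^ (2 ^ D) := h2
    refine h2'.trans ?_
    have h3 : ((slotSet q slot (y s) s).card : ℝ) ^ (2 ^ D) ≤ Real.exp (2 ^ D * y s) := by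
      refine (pow_le_pow_left₀ (Nat.cast_nonneg _) (slotSet_card_le q slot (y s) s) _).trans ?_
      rw [← Real.exp_nat_mul]
      apply le_of_eq
      congr 1
      push_cast
      ring
    have h4 : Δ ^ (2 ^ D) = Real.exp (2 ^ D * Real.log Δ) := by
      conv_lhs => rw [← Real.exp_log hΔ0]
      rw [← Real.exp_nat_mul]
      congr 1
      push_cast
      ring
    rw [h4, Real.exp_add _ (2 ^ D * Real.log Δ), Real.exp_add _ (2 ^ D * y s)]
    exact mul_le_mul_of_nonneg_right (mul_le_mul_of_nonneg_left h3 (Real.exp_pos _).le)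
      (Real.exp_pos _).le
  have h6 : (T.card : ℝ) ^ (2 ^ (D + 1)) ≤ Real.exp (∑ s ∈ fr, 2 ^ (D + 1) * y s +
      ∑ s ∈ frᶜ, (XX q (r s) (κ s) (2 ^ D * y s) (2 ^ (D + 1) * lam) + 2 ^ D * y s +
        2 ^ D * Real.log Δ)) := by
    refine h1.trans ?_
    rw [Real.exp_add, Real.exp_sum, Real.exp_sum]
    rw [← Finset.prod_mul_prod_compl fr E]
    apply mul_le_mul
    · exact Finset.prod_le_prod (fun s _ => hE0 s) (fun s hs => hfr s hs)
    · exact Finset.prod_le_prod (fun s _ => hE0 s) (fun s hs => hcs s (Finset.mem_compl.mp hs))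
    · exact Finset.prod_nonneg (fun s _ => hE0 s)
    · exact Finset.prod_nonneg (fun s _ => (Real.exp_pos _).le)
  by_contra hcon
  push Not at hcon
  have h7 := pow_lt_pow_left₀ hcon (Real.exp_pos _).le (n := 2 ^ (D + 1)) (by positivity)
  rw [← Real.exp_nat_mul] at h7
  have h8 : ((2 ^ (D + 1) : ℕ) : ℝ) * ((∑ s ∈ fr, 2 ^ (D + 1) * y s +
      ∑ s ∈ frᶜ, (XX q (r s) (κ s) (2 ^ D * y s) (2 ^ (D + 1) * lam) + 2 ^ D * y s +
        2 ^ D * Real.log Δ)) / 2 ^ (D + 1)) = ∑ s ∈ fr, 2 ^ (D + 1) * y s +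
      ∑ s ∈ frᶜ, (XX q (r s) (κ s) (2 ^ D * y s) (2 ^ (D + 1) * lam) + 2 ^ D * y s +
        2 ^ D * Real.log Δ) := by
    push_cast
    field_simp
  rw [h8] at h7
  linarith

end Pool.Agent.Lib.AbcS
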