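import Pool.Agent.Lib.AbcS.TallG

/-!
# The very tall triples in a relative box
-/

open Finset Filter Topology

namespace Pool.Agent.Lib.AbcS

open Pool.Agent.Lib.Pabc2 Pool.Agent.Lib.Pabc1
open Pool.Agent.Lib.AbcB (DD)

/-- A member with relative radical at most `z`: the triple is small. -/
theorem small_boxF {t : ℕ × ℕ} (hI : IsT t) {F : Finset ℕ} {z : ℝ} (l : Fin 3)
    (h : (rF F (comp t l) : ℝ) ≤ z) : SmallF F (1 / 2) z t := by
  unfold SmallF
  by_cases h1 : Real.log t.1 ≤ (1 - 1 / 2) * ht t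
  · exact Or.inl h1
  · right
    push Not at h1
    refine ⟨l, comp t l, dvd_rfl, ?_, ?_⟩
    · unfold rF at h
      push_cast at h
      exact h
    · have h2 : t.1 ≤ comp t l := by
        have h3 := hI.2.1
        unfold comp
        split_ifs
        · exact le_rfl
        · exact h3
        · omega
      have h4 : Real.log (t.1 : ℝ) ≤ Real.log (comp t l) := by
        apply Real.log_le_log
        · exact_mod_cast hI.1
        · exact_mod_cast h2
      linarith

/-- The very tall triples in a relative box. -/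
theorem box_tallF (ε : ℝ) (hε : 0 < ε) : ∃ K : ℝ, 1 ≤ K ∧ ∀ K' : ℝ, K ≤ K' →
    ∀ (P A B C : ℕ) (T : Finset (ℕ × ℕ)), 1 ≤ P → 1 ≤ A → 1 ≤ B → 1 ≤ C →
      (∀ t ∈ T, InBoxF P.primeFactors A B C t ∧
        ((P : ℝ) * A * B * C) ^ (K' / Real.log (Real.log ((P : ℝ) * A * B * C))) ≤ ht t) →
      (T.card : ℝ) ≤ K * min (A : ℝ) (min (B : ℝ) C) * ((P : ℝ) * A * B * C) ^ ε := by
  classical
  obtain ⟨η, C0, hη, hC0, hev⟩ := main_shapeF (ε / 2) (1 / 2) (by positivity) (by norm_num)
    (by norm_num)
  obtain ⟨K, hK, hsh⟩ := Pabc11.shape_of_tall η C0 hη hC0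
  obtain ⟨C4, hC4, h4⟩ := four_pow_le (ε / 2) (by positivity)
  obtain ⟨n0, hn0⟩ := ((hev.and hsh).and (eventually_ge_atTop 16)).exists_forall_of_atTop
  obtain ⟨K0, hK0⟩ : ∃ K0 : ℝ, K0 = ((Pabc10.finite_rd n0).toFinset.card : ℝ) := ⟨_, rfl⟩
  have hK00 : 0 ≤ K0 := by rw [hK0]; exact Nat.cast_nonneg _
  refine ⟨K + 2 * K0 + C4, by linarith, ?_⟩
  intro K' hK' P A B C T hP hA hB hC hT
  have hA' : (1 : ℝ) ≤ A := by exact_mod_cast hA
  have hB' : (1 : ℝ) ≤ B := by exact_mod_cast hB
  have hC' : (1 : ℝ) ≤ C := by exact_mod_cast hC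
  have hP' : (1 : ℝ) ≤ P := by exact_mod_cast hP
  obtain ⟨z, hz⟩ : ∃ z : ℝ, z = min (A : ℝ) (min (B : ℝ) C) := ⟨_, rfl⟩
  have hz1 : 1 ≤ z := by
    rw [hz]
    exact le_min hA' (le_min hB' hC')
  obtain ⟨R, hR⟩ : ∃ R : ℝ, R = (P : ℝ) * A * B * C := ⟨_, rfl⟩
  have hRP : (P : ℝ) ≤ R := by
    rw [hR]
    have h1 : (P : ℝ) * 1 ≤ P * A := mul_le_mul_of_nonneg_left hA' (by linarith)
    have h2 : (P : ℝ) * A * 1 ≤ P * A * B := mul_le_mul_of_nonneg_left hB' (by positivity)
    have h3 : (P : ℝ) * A * B * 1 ≤ P * A * B * C := mul_le_mul_of_nonneg_left hC' (by positivity)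
    linarith
  have hR1 : 1 ≤ R := by linarith
  have hR0 : 0 < R := by linarith
  have hRe : (1 : ℝ) ≤ R ^ ε := Real.one_le_rpow hR1 hε.le
  have hzR : 1 ≤ z * R ^ ε := by nlinarith
  have h4P : (2 : ℝ) ^ P.primeFactors.card ≤ C4 * R ^ (ε / 2) := by
    have h24 : (2 : ℝ) ^ P.primeFactors.card ≤ (4 : ℝ) ^ P.primeFactors.card :=
      pow_le_pow_left₀ (by norm_num) (by norm_num) _
    refine h24.trans ((h4 P hP).trans ?_)
    apply mul_le_mul_of_nonneg_left _ (by linarith)
    exact Real.rpow_le_rpow (by linarith) hRP (by positivity)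
  rw [← hz, ← hR]
  simp only [← hR] at hT
  have key := unorderedF (F := P.primeFactors) (A := A) (B := B) (C := C)
    (P := fun t => R ^ (K' / Real.log (Real.log R)) ≤ ht t)
    (X := K0 + C4 * z * R ^ ε / 2) (fun t ht' => by
      rw [AbcB.ht_swap]
      exact ht') (by
      intro A' B' hAB T' hT'
      have hN : ((P * A' * B' * C : ℕ) : ℝ) = R := by
        rw [hR]
        rcases hAB with ⟨rfl, rfl⟩ | ⟨rfl, rfl⟩
        · push_cast; ring
        · push_cast; ring
      have hzz : min (A' : ℝ) (min (B' : ℝ) C) = z := by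
        rw [hz]
        rcases hAB with ⟨rfl, rfl⟩ | ⟨rfl, rfl⟩
        · rfl
        · exact min_left_comm _ _ _
      rcases Nat.lt_or_ge (P * A' * B' * C) n0 with hlt | hge
      · have h1 : T' ⊆ (Pabc10.finite_rd n0).toFinset := by
          intro t ht'
          obtain ⟨hI, hb, _⟩ := hT' t ht'
          rw [Set.Finite.mem_toFinset]
          exact ⟨hI, (box_dataF hI hP hb.2.2.2.1 hb.2.2.2.2.1 hb.2.2.2.2.2).1.trans hlt.le⟩
        have h2 : (T'.card : ℝ) ≤ K0 := by
          rw [hK0]
          exact_mod_cast Finset.card_le_card h1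
        have h3 : 0 ≤ C4 * z * R ^ ε := by positivity
        linarith
      · obtain ⟨⟨g1, g2⟩, g3⟩ := hn0 (P * A' * B' * C) hge
        have h1 := g1 z P.primeFactors T' hz1 (by
          intro t ht'
          obtain ⟨hI, hb, hh⟩ := hT' t ht'
          refine ⟨hI, ?_, ?_⟩
          · rcases min_cases (A' : ℝ) (min (B' : ℝ) C) with ⟨h, _⟩ | ⟨h, _⟩
            · apply small_boxF hI 0
              rw [← hzz, h]
              exact_mod_cast hb.2.2.2.1
            · rcases min_cases (B' : ℝ) (C : ℝ) with ⟨h', _⟩ | ⟨h', _⟩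
              · apply small_boxF hI 1
                rw [← hzz, h, h']
                exact_mod_cast hb.2.2.2.2.1
              · apply small_boxF hI 2
                rw [← hzz, h, h']
                exact_mod_cast hb.2.2.2.2.2
          · apply g2 t hI (box_dataF hI hP hb.2.2.2.1 hb.2.2.2.2.1 hb.2.2.2.2.2).1
            rw [hN]
            refine le_trans ?_ hh
            apply Real.rpow_le_rpow_of_exponent_le hR1
            have h16 : (16 : ℝ) ≤ R := by
              rw [← hN]
              exact_mod_cast g3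
            have hll : 0 < Real.log (Real.log R) := by
              apply Real.log_pos
              rw [Real.lt_log_iff_exp_lt (by linarith)]
              have := Real.exp_one_lt_d9
              linarith
            exact div_le_div_of_nonneg_right (by linarith) hll.le)
        rw [hN] at h1
        have h5 : (2 : ℝ) ^ P.primeFactors.card * z * R ^ (ε / 2) ≤ C4 * z * R ^ ε := by
          have h6 : 0 ≤ z * R ^ (ε / 2) := by positivity
          calc (2 : ℝ) ^ P.primeFactors.card * z * R ^ (ε / 2)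
              = (2 : ℝ) ^ P.primeFactors.card * (z * R ^ (ε / 2)) := by ring
            _ ≤ (C4 * R ^ (ε / 2)) * (z * R ^ (ε / 2)) := mul_le_mul_of_nonneg_right h4P h6
            _ = C4 * z * (R ^ (ε / 2) * R ^ (ε / 2)) := by ring
            _ = C4 * z * R ^ ε := by
                rw [← Real.rpow_add hR0]
                congr 2
                ring
        linarith) T hT
  refine key.trans ?_
  nlinarith

end Pool.Agent.Lib.AbcS
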