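import Pool.Agent.Lib.AbcS.Attr
import Pool.Agent.Lib.Pabc14.CountDet

/-!
# The count for one scale: pigeonhole over the attributes, with a set of free primes
-/

open Finset

namespace Pool.Agent.Lib.AbcS

open Pool.Agent.Lib.Pabc2 Pool.Agent.Lib.Pabc1 Pool.Agent.Lib.Pabc8 Pool.Agent.Lib.Pabc14

/-- The hypothesis on a triple at a scale. -/
structure BaseF (P : Par) (x H v η : ℝ) (q : ℕ) (l : Fin 3) (F : Finset ℕ) (t : ℕ × ℕ) :
    Prop where
  isT : IsT t
  tw_le : tw t ≤ x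
  ht_ge : H ≤ ht t
  ht_le : ht t ≤ 2 * H
  dvd : q ∣ comp t l
  wt_le : wo F t l ≤ 2 * v * x
  mid : ∑ p ∈ band P (H / x) t l, Real.log (p : ℝ) ≤ η * x

/-- The exponents are not too large. -/
theorem ty_ltF {P : Par} {Kp Fc : ℕ} {x H v η : ℝ} {q : ℕ} {l : Fin 3} {F : Finset ℕ}
    {t : ℕ × ℕ} (hx : 0 < x)
    (hH : 0 < H) (hB : BaseF P x H v η q l F t)
    (hF : (P.m0 * Kp : ℕ) * (Real.log (6 * x) + P.a1) < (Fc : ℝ)) {p : ℕ}
    (hp : p ∈ tpr P (H / x) t l) : ty (P.m0 * Kp) P.a1 (H / x) (ex t p) < Fc := by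
  have hh : 0 < H / x := by positivity
  have hp1 := (Finset.mem_filter.mp hp).1
  have hp2 := (Finset.mem_filter.mp hp).2
  have hpp : p.Prime := Nat.prime_of_mem_primeFactors (Finset.mem_filter.mp hp1).1
  have h1 : (ex t p : ℝ) * Real.log p ≤ 4 * H := by
    have g1 := Finset.single_le_sum (f := fun p : ℕ => (ex t p : ℝ) * Real.log p)
      (fun p _ => mul_nonneg (Nat.cast_nonneg _) (Real.log_natCast_nonneg p)) hp1
    have g2 := oprimes_mass hB.isT l
    have g3 := hB.ht_le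
    linarith
  have h2 : (ex t p : ℝ) ≤ 6 * H := by
    have g1 : (0.6931471803 : ℝ) < Real.log 2 := Real.log_two_gt_d9
    have g2 : Real.log 2 ≤ Real.log p := Real.log_le_log (by norm_num) (by exact_mod_cast hpp.two_le)
    have g3 : (ex t p : ℝ) * (2 / 3) ≤ ex t p * Real.log p :=
      mul_le_mul_of_nonneg_left (by linarith) (Nat.cast_nonneg _)
    linarith
  have h3 : (0 : ℝ) < ex t p := lt_of_lt_of_le (by positivity) hp2
  have h4 : Real.log ((ex t p : ℝ) / (H / x)) ≤ Real.log (6 * x) := by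
    apply Real.log_le_log (by positivity)
    rw [div_le_iff₀ hh]
    calc (ex t p : ℝ) ≤ 6 * H := h2
      _ = 6 * x * (H / x) := by field_simp
  have h5 := ty_le (K := P.m0 * Kp) hh hp2
  have h6 : ((P.m0 * Kp : ℕ) : ℝ) * (Real.log ((ex t p : ℝ) / (H / x)) + P.a1) ≤
      (P.m0 * Kp : ℕ) * (Real.log (6 * x) + P.a1) :=
    mul_le_mul_of_nonneg_left (by linarith) (Nat.cast_nonneg _)
  exact_mod_cast (h5.trans h6).trans_lt hF

/-- The weight of the coarse cells. -/
noncomputable def WcF (P : Par) (Kp : ℕ) (h : ℝ) (ω : ℕ → Bool × ℕ) (l : Fin 3) (F : Finset ℕ)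
    (t : ℕ × ℕ)
    (i : ℕ) : ℝ :=
  ∑ p ∈ (tpr P h t l \ F).filter (fun p => (P.m0 * Kp * (P.a1 - P.a2) ≤ (ω p).2 ∧
    (ω p).2 < P.m0 * Kp * (P.a1 + P.a3)) ∧
      ((ω p).2 - P.m0 * Kp * (P.a1 - P.a2)) / Kp = i), Real.log (p : ℝ)

theorem WcF_nonneg (P : Par) (Kp : ℕ) (h : ℝ) (ω : ℕ → Bool × ℕ) (l : Fin 3) (F : Finset ℕ)
    (t : ℕ × ℕ)
    (i : ℕ) : 0 ≤ WcF P Kp h ω l F t i :=
  Finset.sum_nonneg (fun p _ => Real.log_natCast_nonneg p)

theorem sum_WcF_le (P : Par) (Kp : ℕ) (h : ℝ) (ω : ℕ → Bool × ℕ) (l : Fin 3) (F : Finset ℕ)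
    (t : ℕ × ℕ)
    (A : Finset ℕ) : ∑ i ∈ A, WcF P Kp h ω l F t i ≤ ∑ p ∈ tpr P h t l \ F, Real.log (p : ℝ) := by
  classical
  unfold WcF
  rw [← Finset.sum_biUnion]
  · apply Finset.sum_le_sum_of_subset_of_nonneg
    · intro p hp
      rw [Finset.mem_biUnion] at hp
      obtain ⟨i, _, hi⟩ := hp
      exact (Finset.mem_filter.mp hi).1
    · intro p _ _
      exact Real.log_natCast_nonneg p
  · intro i _ j _ hij
    rw [Function.onFun, Finset.disjoint_left]
    intro p hp hp'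
    rw [Finset.mem_filter] at hp hp'
    exact hij (hp.2.2.symm.trans hp'.2.2)

/-- The weight of a slot in terms of the weights of the cells. -/
theorem WF_le {P : Par} {δ η : ℝ} (hP : P.Good δ η) {Kp : ℕ} (hKp : 0 < Kp) {h : ℝ}
    {ω : ℕ → Bool × ℕ} {l : Fin 3} {F : Finset ℕ} {t : ℕ × ℕ} (σ : ℕ → Fin (P.w + 1) × Bool) (s : Slot P.w)
    (u : Fin (P.w + 1) × Bool) (hs : s.2 = some u) :
    WF P Kp h σ ω l F t s ≤ ∑ i ∈ (range (P.m0 * (P.a2 + P.a3))).filter (fun i => σ i = u),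
      WcF P Kp h ω l F t i := by
  classical
  unfold WcF WF
  rw [← Finset.sum_biUnion]
  · apply Finset.sum_le_sum_of_subset_of_nonneg
    · intro p hp
      rw [Finset.mem_filter] at hp
      obtain ⟨hp1, hp2⟩ := hp
      have hp3 : (slt P Kp σ ω p).2 = some u := by rw [hp2, hs]
      unfold slt at hp3
      simp only at hp3
      split_ifs at hp3 with hc
      rw [Option.some_inj] at hp3
      rw [Finset.mem_biUnion]
      refine ⟨((ω p).2 - P.m0 * Kp * (P.a1 - P.a2)) / Kp, ?_, ?_⟩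
      · rw [Finset.mem_filter, Finset.mem_range]
        refine ⟨?_, hp3⟩
        apply Nat.div_lt_of_lt_mul
        have e1 : P.m0 * Kp * (P.a1 - P.a2) + Kp * (P.m0 * (P.a2 + P.a3)) =
            P.m0 * Kp * (P.a1 + P.a3) := by
          have e2 : P.a1 = (P.a1 - P.a2) + P.a2 := by
            have := hP.ha
            omega
          conv_rhs => rw [e2]
          ring
        have := hc.2
        omega
      · rw [Finset.mem_filter]
        exact ⟨hp1, hc, rfl⟩
    · intro p _ _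
      exact Real.log_natCast_nonneg p
  · intro i _ j _ hij
    rw [Function.onFun, Finset.disjoint_left]
    intro p hp hp'
    rw [Finset.mem_filter] at hp hp'
    exact hij (hp.2.2.symm.trans hp'.2.2)

theorem count_detF (P : Par) {δ η : ℝ} (hδ : 0 < δ) (hη : 0 < η) (hη1 : η ≤ 1) (j : ℕ)
    (hj : 1 ≤ η * 2 ^ j)
    (hP : P.Good (δ / 2 ^ j) (η / 2 ^ j)) (Kp N Fc : ℕ) (x H v Δ : ℝ) (hx : 0 < x)
    (hKp : 4 ≤ Real.exp (-(P.a1 : ℝ)) * (P.m0 * Kp)) (hxΘ : (P.Θ : ℝ) * P.m0 ≤ x)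
    (hH1 : 7680 * P.w * 2 ^ j * x ≤ δ * H) (hH2 : P.m0 * Real.exp P.a2 * x ≤ H)
    (hH3 : 1000 ≤ δ * H) (hΔ1 : 1 ≤ Δ)
    (hΔ : ∀ k : ℕ, 0 < k → Real.log k ≤ 8 * P.w * 2 ^ j * x → (k.divisors.card : ℝ) ≤ Δ)
    (hΔ2 : 4 * P.w * 2 ^ j * Real.log Δ ≤ η * x)
    (hF : (P.m0 * Kp : ℕ) * (Real.log (6 * x) + P.a1) < (Fc : ℝ)) (q : ℕ) (hq : 0 < q)
    (hq1 : δ * H ≤ Real.log q)
    (hq2 : Real.log ((∏ p ∈ q.primeFactors, p : ℕ) : ℝ) ≤ x) (l : Fin 3) (F : Finset ℕ)
    (T : Finset (ℕ × ℕ))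
    (hT : ∀ t ∈ T, BaseF P x H v η q l F t ∧ (tpr P (H / x) t l).card ≤ N) :
    (T.card : ℝ) ≤ (2 * Fc : ℝ) ^ N * (2 : ℝ) ^ F.card * nattr P *
      Real.exp ((v + 13 * η) * x) := by
  classical
  have hm : (1 : ℝ) ≤ P.m0 := by exact_mod_cast hP.hm
  have hw2 : (2 : ℝ) ≤ P.w := by exact_mod_cast hP.hw
  have hKp0 : 0 < Kp := by
    by_contra hcon
    have : Kp = 0 := by omega
    rw [this] at hKp
    simp only [Nat.cast_zero, mul_zero] at hKp
    linarith
  have hH0 : 0 < H := by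
    have : 0 < δ * H := by linarith
    by_contra hcon
    push Not at hcon
    nlinarith
  have hh0 : 0 < H / x := by positivity
  have hK0 : 0 < P.m0 * Kp := Nat.mul_pos hP.hm hKp0
  rcases T.eq_empty_or_nonempty with hTe | ⟨t0, ht0⟩
  · rw [hTe, Finset.card_empty, Nat.cast_zero]
    positivity
  have hl6 : 0 ≤ Real.log (6 * x) + P.a1 := by
    have g1 : (1 : ℝ) ≤ 6 * x := by
      have g2 : (P.w : ℝ) ≤ P.Θ := by exact_mod_cast hP.hΘ
      have g3 : (2 : ℝ) * 1 ≤ P.Θ * P.m0 := mul_le_mul (by linarith) hm (by norm_num) (by linarith)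
      linarith
    have := Real.log_nonneg g1
    positivity
  have hF0 : 0 < Fc := by
    have : (0 : ℝ) < Fc := lt_of_le_of_lt (by positivity) hF
    exact_mod_cast this
  have : NeZero Fc := ⟨hF0.ne'⟩
  -- a common typing
  obtain ⟨ω', hω'⟩ := exists_typing (κ := Bool × Fin Fc) T (fun t => tpr P (H / x) t l)
    (fun t p => (decide (lab t p = lM l), Fin.ofNat Fc (ty (P.m0 * Kp) P.a1 (H / x) (ex t p)))) N
    (fun t ht' => (hT t ht').2)
  set T1 := T.filter (fun t => ∀ p ∈ tpr P (H / x) t l, ω' p =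
    (decide (lab t p = lM l), Fin.ofNat Fc (ty (P.m0 * Kp) P.a1 (H / x) (ex t p)))) with hT1
  set ω : ℕ → Bool × ℕ := fun p => ((ω' p).1, ((ω' p).2 : ℕ)) with hω
  have hcardκ : Fintype.card (Bool × Fin Fc) = 2 * Fc := by simp
  have hT1a : ∀ t ∈ T1, BaseF P x H v η q l F t := fun t ht' =>
    (hT t (Finset.mem_filter.mp ht').1).1
  have hT1b : ∀ t ∈ T1, ∀ p ∈ tpr P (H / x) t l,
      ω p = (decide (lab t p = lM l), ty (P.m0 * Kp) P.a1 (H / x) (ex t p)) := by
    intro t ht' p hp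
    have h1 := (Finset.mem_filter.mp ht').2 p hp
    simp only [hω, h1, Fin.val_ofNat]
    rw [Nat.mod_eq_of_lt (ty_ltF hx hH0 (hT1a t ht') hF hp)]
  -- the weight of the typed primes
  have hwt : ∀ t ∈ T1, ∑ p ∈ tpr P (H / x) t l \ F, Real.log (p : ℝ) ≤ x := by
    intro t ht'
    have hB := hT1a t ht'
    have g1 : ∑ p ∈ tpr P (H / x) t l \ F, Real.log (p : ℝ) ≤
        ∑ p ∈ oprimes t l, Real.log (p : ℝ) :=
      Finset.sum_le_sum_of_subset_of_nonneg (Finset.sdiff_subset.trans (tpr_subset _ _ _ _))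
        (fun p _ _ => Real.log_natCast_nonneg p)
    rw [oprimes_weight] at g1
    have g2 := wt_nonneg t l
    have g3 := hB.tw_le
    linarith
  -- the slot maps
  have hI : 0 < P.m0 * (P.a2 + P.a3) := Nat.mul_pos hP.hm (by
    have := hP.ha3
    omega)
  have hcex : ∀ t, ∃ c : Fin (P.m0 * (P.a2 + P.a3)) → Fin (P.w + 1) × Bool, t ∈ T1 →
      (∀ i < P.m0 * (P.a2 + P.a3), ∀ j < P.m0 * (P.a2 + P.a3), exn c i = exn c j →
        (exn c i).2 = true → i = j) ∧
      (∀ i < P.m0 * (P.a2 + P.a3), ∀ j < P.m0 * (P.a2 + P.a3), exn c i = exn c j →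
        (exn c i).2 = false → (P.w : ℝ) * ((j : ℝ) - i + 1) ≤ 2 * (P.m0 * (P.a2 + P.a3))) ∧
      ∀ s : Fin (P.w + 1) × Bool, s.2 = false →
        (P.w : ℝ) * ∑ i ∈ (range (P.m0 * (P.a2 + P.a3))).filter (fun i => exn c i = s),
          WcF P Kp (H / x) ω l F t i ≤ 2 * x := by
    intro t
    by_cases ht' : t ∈ T1
    · obtain ⟨c, h1, h2, h3⟩ := slot_map' (P.m0 * (P.a2 + P.a3)) P.w hI (by
        have := hP.hw
        omega) (fun i => WcF P Kp (H / x) ω l F t i / x)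
        (fun i => div_nonneg (WcF_nonneg _ _ _ _ _ _ _ _) hx.le) (by
          rw [← Finset.sum_div, div_le_one hx]
          exact (sum_WcF_le _ _ _ _ _ _ _ _).trans (hwt t ht'))
      refine ⟨c, fun _ => ⟨h1, ?_, ?_⟩⟩
      · intro i hi j hj h4 h5
        have := h2 i hi j hj h4 h5
        push_cast at this
        exact this
      · intro s hs
        have h4 := h3 s hs
        rw [← Finset.sum_div, mul_div_assoc', div_le_iff₀ hx] at h4
        exact h4
    · exact ⟨fun _ => (0, true), fun h => absurd h ht'⟩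
  choose cc hcc using hcex
  set A : ℕ × ℕ → (Fin (P.m0 * (P.a2 + P.a3)) → Fin (P.w + 1) × Bool) ×
    (Slot P.w → Fin (P.Θ + 1)) := fun t => (cc t, fun s =>
      ⟨min ⌊P.Θ * WF P Kp (H / x) (exn (cc t)) ω l F t s / x⌋₊ P.Θ,
        Nat.lt_succ_of_le (min_le_right _ _)⟩) with hA
  have hfib : ∀ (F0 : Finset ℕ) (a : _),
      (((T1.filter (fun t => tpr P (H / x) t l ∩ F = F0)).filter (fun t => A t = a)).card : ℝ) ≤
      Real.exp ((v + 13 * η) * x) := by
    intro F0 a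
    rcases ((T1.filter (fun t => tpr P (H / x) t l ∩ F = F0)).filter
      (fun t => A t = a)).eq_empty_or_nonempty with hE | ⟨t1, ht1⟩
    · rw [hE, Finset.card_empty, Nat.cast_zero]
      exact (Real.exp_pos _).le
    rw [Finset.mem_filter, Finset.mem_filter] at ht1
    have hc1 := hcc t1 ht1.1.1
    have ha1 : cc t1 = a.1 := by rw [← ht1.2]
    rw [ha1] at hc1
    apply count_attrF P hδ hη hη1 j hj hP Kp x H v Δ hx hKp hxΘ hH1 hH2 hH3 hΔ1 hΔ hΔ2 q hq hq1
      hq2 l F F0 (exn a.1) ω (fun s => (a.2 s : ℕ)) hc1.1 hc1.2.1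
    intro t ht'
    rw [Finset.mem_filter, Finset.mem_filter] at ht'
    have hB := hT1a t ht'.1.1
    have hct := hcc t ht'.1.1
    have hat : cc t = a.1 := by rw [← ht'.2]
    rw [hat] at hct
    refine ⟨hB.isT, hB.tw_le, hB.ht_ge, hB.ht_le, hB.dvd, hB.wt_le, hT1b t ht'.1.1, ?_,
      ht'.1.2, ?_, ?_⟩
    · refine le_trans ?_ hB.mid
      apply Finset.sum_le_sum_of_subset_of_nonneg
      · intro p hp
        rw [Finset.mem_filter] at hp
        obtain ⟨hp1, hp2⟩ := hp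
        rw [hT1b t ht'.1.1 p hp1] at hp2
        simp only at hp2
        have hp3 := (Finset.mem_filter.mp hp1)
        unfold band
        rw [Finset.mem_filter]
        refine ⟨hp3.1, hp3.2, ?_⟩
        by_contra hcon
        push Not at hcon
        have h1 := (mul_le_ty_iff (K := P.m0 * Kp) (a := P.a1) (b := P.a1 - P.a2) hK0 hh0
          hp3.2).mpr (by
          rw [Nat.cast_sub hP.ha]
          have e1 : (P.a1 : ℝ) - P.a2 - P.a1 = -(P.a2 : ℝ) := by ring
          rw [e1]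
          exact hcon)
        omega
      · intro p _ _
        exact Real.log_natCast_nonneg p
    · intro s
      have h1 : a.2 s = ⟨min ⌊P.Θ * WF P Kp (H / x) (exn (cc t)) ω l F t s / x⌋₊ P.Θ,
        Nat.lt_succ_of_le (min_le_right _ _)⟩ := by rw [← ht'.2]
      rw [h1]
      simp only
      rw [hat]
      apply min_eq_left
      apply Nat.floor_le_of_le
      rw [div_le_iff₀ hx]
      apply mul_le_mul_of_nonneg_left _ (Nat.cast_nonneg _)
      have h2 := Finset.single_le_sum (f := WF P Kp (H / x) (exn a.1) ω l F t)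
        (fun s _ => WF_nonneg _ _ _ _ _ _ _ _ s) (Finset.mem_univ s)
      rw [sum_WF] at h2
      exact h2.trans (hwt t ht'.1.1)
    · intro s g hs
      have h1 := WF_le hP hKp0 (h := H / x) (ω := ω) (l := l) (F := F) (t := t) (exn a.1) s
        (g, false) hs
      have h2 := hct.2.2 (g, false) rfl
      refine le_trans ?_ h2
      exact mul_le_mul_of_nonneg_left h1 (Nat.cast_nonneg _)
  have hfib2 : ∀ F0 : Finset ℕ, ((T1.filter (fun t => tpr P (H / x) t l ∩ F = F0)).card : ℝ) ≤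
      nattr P * Real.exp ((v + 13 * η) * x) := by
    intro F0
    have h1 := Finset.card_eq_sum_card_fiberwise (f := A)
      (s := T1.filter (fun t => tpr P (H / x) t l ∩ F = F0)) (t := Finset.univ)
      (fun t _ => Finset.mem_coe.mpr (Finset.mem_univ _))
    rw [h1]
    push_cast
    calc ∑ a, (((T1.filter (fun t => tpr P (H / x) t l ∩ F = F0)).filter
          (fun t => A t = a)).card : ℝ)
        ≤ ∑ _a : (Fin (P.m0 * (P.a2 + P.a3)) → Fin (P.w + 1) × Bool) ×
            (Slot P.w → Fin (P.Θ + 1)), Real.exp ((v + 13 * η) * x) :=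
          Finset.sum_le_sum (fun a _ => hfib F0 a)
      _ = nattr P * Real.exp ((v + 13 * η) * x) := by
          rw [Finset.sum_const, nsmul_eq_mul, Finset.card_univ]
          rfl
  have hT1card : (T1.card : ℝ) ≤ (2 : ℝ) ^ F.card * (nattr P * Real.exp ((v + 13 * η) * x)) := by
    have h1 := Finset.card_eq_sum_card_fiberwise (f := fun t => tpr P (H / x) t l ∩ F)
      (s := T1) (t := F.powerset)
      (fun t _ => Finset.mem_coe.mpr (Finset.mem_powerset.mpr Finset.inter_subset_right))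
    rw [h1]
    push_cast
    calc ∑ F0 ∈ F.powerset, ((T1.filter (fun t => tpr P (H / x) t l ∩ F = F0)).card : ℝ)
        ≤ ∑ _F0 ∈ F.powerset, nattr P * Real.exp ((v + 13 * η) * x) :=
          Finset.sum_le_sum (fun F0 _ => hfib2 F0)
      _ = (2 : ℝ) ^ F.card * (nattr P * Real.exp ((v + 13 * η) * x)) := by
          rw [Finset.sum_const, nsmul_eq_mul, Finset.card_powerset]
          push_cast
          ring
  have h1 : (T.card : ℝ) ≤ (2 * Fc : ℝ) ^ N * T1.card := by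
    rw [hcardκ] at hω'
    exact_mod_cast hω'
  calc (T.card : ℝ) ≤ (2 * Fc : ℝ) ^ N * T1.card := h1
    _ ≤ (2 * Fc : ℝ) ^ N * ((2 : ℝ) ^ F.card * (nattr P * Real.exp ((v + 13 * η) * x))) :=
        mul_le_mul_of_nonneg_left hT1card (by positivity)
    _ = _ := by ring

end Pool.Agent.Lib.AbcS
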