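import Pool.Agent.Lib.AbcS.TallF

/-!
# Uniformity in the weight of the two lightest members, with a set of free primes
-/

open Finset Filter Topology

namespace Pool.Agent.Lib.AbcS

open Pool.Agent.Lib.Pabc2 Pool.Agent.Lib.Pabc1 Pool.Agent.Lib.Pabc8 Pool.Agent.Lib.AbcL
open Pool.Agent.Lib.Pabc14

theorem wo_le_log {t : ℕ × ℕ} {n : ℕ} (hrd : rd t ≤ n) (F : Finset ℕ) (l : Fin 3) :
    wo F t l ≤ Real.log n := by
  have h1 := tw_le hrd
  have h2 := wt_nonneg t l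
  have h3 : wo F t l ≤ ∑ p ∈ oprimes t l, Real.log (p : ℝ) :=
    Finset.sum_le_sum_of_subset_of_nonneg Finset.sdiff_subset
      (fun p _ _ => Real.log_natCast_nonneg p)
  rw [oprimes_weight] at h3
  linarith

/-- The triples of radical at most `n` and height at least `M0 log n`, the parts outside `F` of
two members of which have together radical at most `D`: at most `4 ^ |F| * sqrt D * n ^ ε`,
uniformly in `D`. -/
theorem tall_gridF (ε : ℝ) (hε : 0 < ε) : ∃ M0 : ℝ, 1 ≤ M0 ∧ ∀ᶠ n : ℕ in atTop,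
    ∀ (F : Finset ℕ) (D : ℝ) (T : Finset (ℕ × ℕ)), 1 ≤ D →
      (∀ t ∈ T, IsT t ∧ rd t ≤ n ∧ M0 * Real.log n ≤ ht t ∧
        ∃ l : Fin 3, wo F t l ≤ Real.log D) →
      (T.card : ℝ) ≤ (4 : ℝ) ^ F.card * (Real.sqrt D * (n : ℝ) ^ ε) := by
  classical
  obtain ⟨δ, hδ⟩ : ∃ δ : ℝ, δ = ε / 4 := ⟨_, rfl⟩
  have hδ0 : 0 < δ := by rw [hδ]; positivity
  obtain ⟨J, hJ⟩ := exists_nat_ge (1 / (2 * δ))
  choose M hM1 hM2 using fun j : ℕ => tall_vF ((j : ℝ) * δ) (by positivity) (ε / 2)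
    (by positivity)
  obtain ⟨M0, hM0⟩ : ∃ M0 : ℝ, M0 = 1 + ∑ j ∈ Finset.range (J + 2), M j := ⟨_, rfl⟩
  have hMpos : ∀ j, 0 ≤ M j := fun j => zero_le_one.trans (hM1 j)
  have hMle : ∀ j ∈ Finset.range (J + 2), M j ≤ M0 := by
    intro j hj
    have h1 := Finset.single_le_sum (f := M) (fun j _ => hMpos j) hj
    rw [hM0]
    linarith
  have hM01 : 1 ≤ M0 := by
    have h1 : 0 ≤ ∑ j ∈ Finset.range (J + 2), M j := Finset.sum_nonneg (fun j _ => hMpos j)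
    rw [hM0]
    linarith
  refine ⟨M0, hM01, ?_⟩
  have hall := (Filter.eventually_all_finset (Finset.range (J + 2))).mpr (fun j _ => hM2 j)
  filter_upwards [hall, eventually_ge_atTop 2] with n hn hn2 F D T hD hT
  have hn1 : 1 ≤ n := by omega
  have hn1' : (1 : ℝ) ≤ n := by exact_mod_cast hn1
  have hn0 : (0 : ℝ) < n := by linarith
  have hx0 : 0 < Real.log (n : ℝ) := Real.log_pos (by exact_mod_cast hn2)
  have hy0 : 0 ≤ Real.log D := Real.log_nonneg hD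
  obtain ⟨v, hv⟩ : ∃ v : ℝ, v = min (Real.log D / (2 * Real.log n)) (1 / 2) := ⟨_, rfl⟩
  have hv0 : 0 ≤ v := by
    rw [hv]
    exact le_min (by positivity) (by norm_num)
  have hv1 : v ≤ 1 / 2 := by
    rw [hv]
    exact min_le_right _ _
  have hv2 : 2 * v * Real.log n ≤ Real.log D := by
    have h1 : v ≤ Real.log D / (2 * Real.log n) := by
      rw [hv]
      exact min_le_left _ _
    rw [le_div_iff₀ (by positivity)] at h1
    linarith
  have hv3 : min (Real.log D) (Real.log n) ≤ 2 * v * Real.log n := by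
    rw [hv]
    rcases min_cases (Real.log D / (2 * Real.log n)) (1 / 2) with ⟨h, _⟩ | ⟨h, _⟩
    · rw [h]
      refine (min_le_left _ _).trans (le_of_eq ?_)
      field_simp
    · rw [h]
      refine (min_le_right _ _).trans (le_of_eq ?_)
      ring
  obtain ⟨j, hj, hj1, hj2⟩ := AbcB.grid_point hδ0 hv0 hv1 hJ
  have hcard := hn j hj F T (by
    intro t ht'
    obtain ⟨h1, h2, h3, l, h4⟩ := hT t ht'
    refine ⟨h1, h2, le_trans (mul_le_mul_of_nonneg_right (hMle j hj) hx0.le) h3, l, ?_⟩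
    have h5 := wo_le_log h2 F l
    have h6 : wo F t l ≤ min (Real.log D) (Real.log n) := le_min h4 h5
    have h7 : 2 * v * Real.log n ≤ 2 * ((j : ℝ) * δ) * Real.log n :=
      mul_le_mul_of_nonneg_right (by linarith) hx0.le
    linarith)
  refine hcard.trans ?_
  have h8 := AbcB.rpow_le_sqrt hn0 (by linarith : (0 : ℝ) < D) hv2
  apply mul_le_mul_of_nonneg_left _ (by positivity)
  calc (n : ℝ) ^ ((j : ℝ) * δ + ε / 2) ≤ (n : ℝ) ^ (v + ε) := by
        apply Real.rpow_le_rpow_of_exponent_le hn1'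
        rw [hδ] at hj2 ⊢
        linarith
    _ = (n : ℝ) ^ v * (n : ℝ) ^ ε := Real.rpow_add hn0 _ _
    _ ≤ Real.sqrt D * (n : ℝ) ^ ε := mul_le_mul_of_nonneg_right h8 (by positivity)

/-- All triples of radical at most `N0` with `c ≥ rad ^ M`, the parts outside `F` of two members of
which have together radical at most `D`. -/
theorem viol_isTF (ε : ℝ) (hε : 0 < ε) : ∃ K M : ℝ, 1 ≤ K ∧ 1 ≤ M ∧
    ∀ (N0 : ℕ) (F : Finset ℕ) (D : ℝ) (T : Finset (ℕ × ℕ)), 1 ≤ N0 → 1 ≤ D →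
      (∀ t ∈ T, IsT t ∧ rd t ≤ N0 ∧ M * Real.log (rd t) ≤ ht t ∧
        ∃ l : Fin 3, wo F t l ≤ Real.log D) →
      (T.card : ℝ) ≤ K * (4 : ℝ) ^ F.card * Real.sqrt D * (N0 : ℝ) ^ ε := by
  classical
  obtain ⟨M0, hM01, hM0⟩ := tall_gridF (ε / 2) (by positivity)
  obtain ⟨n0, hn0⟩ := hM0.exists_forall_of_atTop
  obtain ⟨n1, hn1⟩ : ∃ n1, n1 = max n0 4 := ⟨_, rfl⟩
  obtain ⟨K0, hK0⟩ : ∃ K0 : ℝ, K0 = ((Pabc10.finite_rd n1).toFinset.card : ℝ) := ⟨_, rfl⟩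
  have hK00 : 0 ≤ K0 := by rw [hK0]; exact Nat.cast_nonneg _
  obtain ⟨K1, hK1⟩ : ∃ K1 : ℝ, K1 = (2 / (ε / 2) + 1) * (2 : ℝ) ^ (ε / 2) := ⟨_, rfl⟩
  have hK10 : 0 ≤ K1 := by rw [hK1]; positivity
  refine ⟨K0 + K1 + 1, 2 * M0, by linarith, by linarith, ?_⟩
  intro N0 F D T hN0 hD hT
  have hN0' : (1 : ℝ) ≤ N0 := by exact_mod_cast hN0
  have hN00 : (0 : ℝ) < N0 := by linarith
  have hsD0 : 1 ≤ Real.sqrt D := Real.one_le_sqrt.2 hD
  obtain ⟨sD, hsDe⟩ : ∃ sD : ℝ, sD = (4 : ℝ) ^ F.card * Real.sqrt D := ⟨_, rfl⟩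
  have hf1 : (1 : ℝ) ≤ (4 : ℝ) ^ F.card := one_le_pow₀ (by norm_num)
  have hsD : 1 ≤ sD := by
    rw [hsDe]
    calc (1 : ℝ) = 1 * 1 := by ring
      _ ≤ (4 : ℝ) ^ F.card * Real.sqrt D := mul_le_mul hf1 hsD0 zero_le_one (by linarith)
  have hsD' : 0 ≤ sD := by linarith
  obtain ⟨TT, hTT⟩ : ∃ TT : ℕ → Finset (ℕ × ℕ), TT = fun k => T.filter (fun t =>
    n1 < rd t ∧ Nat.log 2 (rd t) = k) := ⟨_, rfl⟩
  have hcover : T ⊆ (Pabc10.finite_rd n1).toFinset ∪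
      (Finset.range (Nat.log 2 N0 + 1)).biUnion TT := by
    intro t ht'
    obtain ⟨h1, h2, h3, h4⟩ := hT t ht'
    rw [Finset.mem_union]
    rcases Nat.lt_or_ge n1 (rd t) with h | h
    · right
      rw [Finset.mem_biUnion]
      refine ⟨Nat.log 2 (rd t), ?_, ?_⟩
      · rw [Finset.mem_range, Nat.lt_succ_iff]
        exact Nat.log_mono_right h2
      · rw [hTT]
        exact Finset.mem_filter.mpr ⟨ht', h, rfl⟩
    · left
      rw [Set.Finite.mem_toFinset]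
      exact ⟨h1, h⟩
  have hTk : ∀ k ∈ Finset.range (Nat.log 2 N0 + 1),
      ((TT k).card : ℝ) ≤ sD * ((2 : ℝ) ^ (ε / 2) * (N0 : ℝ) ^ (ε / 2)) := by
    intro k hk
    rcases (TT k).eq_empty_or_nonempty with he | ⟨t0, ht0⟩
    · rw [he, Finset.card_empty, Nat.cast_zero]
      positivity
    have hmem : ∀ t ∈ TT k, t ∈ T ∧ n1 < rd t ∧ rd t ≤ 2 ^ (k + 1) ∧ 2 ^ (k + 1) ≤ 2 * rd t := by
      intro t ht'
      rw [hTT] at ht'
      obtain ⟨h1, h2, h3⟩ := Finset.mem_filter.mp ht'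
      refine ⟨h1, h2, ?_, ?_⟩
      · rw [← h3]
        exact (Nat.lt_pow_succ_log_self (by norm_num) _).le
      · rw [← h3, pow_succ, mul_comm]
        exact Nat.mul_le_mul_left _ (Nat.pow_log_le_self 2 (by
          have := rd_pos t
          omega))
    obtain ⟨a1, a2, a3, a4⟩ := hmem t0 ht0
    have hbig : n0 ≤ 2 ^ (k + 1) := by
      have : n0 ≤ n1 := by rw [hn1]; exact le_max_left _ _
      omega
    have hN2 : 2 ^ (k + 1) ≤ 2 * N0 := a4.trans (Nat.mul_le_mul_left _ (hT t0 a1).2.1)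
    have h5 := hn0 (2 ^ (k + 1)) hbig F D (TT k) hD (by
      intro t ht'
      obtain ⟨b1, b2, b3, b4⟩ := hmem t ht'
      obtain ⟨c1, c2, c3, c4⟩ := hT t b1
      refine ⟨c1, b3, ?_, c4⟩
      have h4 : 4 ≤ n1 := by rw [hn1]; exact le_max_right _ _
      have hr2 : (2 : ℝ) ≤ rd t := by
        have : 2 ≤ rd t := by omega
        exact_mod_cast this
      have hr0 : (0 : ℝ) < rd t := by linarith
      have h6 : Real.log ((2 ^ (k + 1) : ℕ) : ℝ) ≤ 2 * Real.log (rd t) := by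
        have h7 : ((2 ^ (k + 1) : ℕ) : ℝ) ≤ (rd t : ℝ) * rd t := by
          have h8 : ((2 ^ (k + 1) : ℕ) : ℝ) ≤ 2 * (rd t : ℝ) := by exact_mod_cast b4
          nlinarith
        have h9 : (0 : ℝ) < ((2 ^ (k + 1) : ℕ) : ℝ) := by positivity
        have h10 := Real.log_le_log h9 h7
        rw [Real.log_mul hr0.ne' hr0.ne'] at h10
        linarith
      calc M0 * Real.log ((2 ^ (k + 1) : ℕ) : ℝ) ≤ M0 * (2 * Real.log (rd t)) :=
            mul_le_mul_of_nonneg_left h6 (by linarith)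
        _ = 2 * M0 * Real.log (rd t) := by ring
        _ ≤ ht t := c3)
    rw [← mul_assoc, ← hsDe] at h5
    refine h5.trans (mul_le_mul_of_nonneg_left ?_ hsD')
    rw [← Real.mul_rpow (by norm_num) hN00.le]
    apply Real.rpow_le_rpow (by positivity) _ (by positivity)
    exact_mod_cast hN2
  have hlog := AbcB.log2_le_rpow (ε / 2) (by positivity) N0 hN0
  have hNe : (1 : ℝ) ≤ (N0 : ℝ) ^ ε := Real.one_le_rpow hN0' hε.le
  have hsplit : (N0 : ℝ) ^ (ε / 2) * (N0 : ℝ) ^ (ε / 2) = (N0 : ℝ) ^ ε := by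
    rw [← Real.rpow_add hN00]
    congr 1
    ring
  have hc1 : (T.card : ℝ) ≤ K0 + ∑ k ∈ Finset.range (Nat.log 2 N0 + 1), ((TT k).card : ℝ) := by
    rw [hK0]
    have h1 := (Finset.card_le_card hcover).trans ((Finset.card_union_le _ _).trans
      (Nat.add_le_add_left Finset.card_biUnion_le _))
    exact_mod_cast h1
  have hc2 : ∑ k ∈ Finset.range (Nat.log 2 N0 + 1), ((TT k).card : ℝ) ≤
      K1 * (sD * (N0 : ℝ) ^ ε) := by
    calc ∑ k ∈ Finset.range (Nat.log 2 N0 + 1), ((TT k).card : ℝ)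
        ≤ ∑ _k ∈ Finset.range (Nat.log 2 N0 + 1),
            sD * ((2 : ℝ) ^ (ε / 2) * (N0 : ℝ) ^ (ε / 2)) := Finset.sum_le_sum hTk
      _ = ((Nat.log 2 N0 + 1 : ℕ) : ℝ) *
            (sD * ((2 : ℝ) ^ (ε / 2) * (N0 : ℝ) ^ (ε / 2))) := by
          rw [Finset.sum_const, nsmul_eq_mul, Finset.card_range]
      _ ≤ ((2 / (ε / 2) + 1) * (N0 : ℝ) ^ (ε / 2)) *
            (sD * ((2 : ℝ) ^ (ε / 2) * (N0 : ℝ) ^ (ε / 2))) :=
          mul_le_mul_of_nonneg_right hlog (by positivity)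
      _ = K1 * (sD * ((N0 : ℝ) ^ (ε / 2) * (N0 : ℝ) ^ (ε / 2))) := by
          rw [hK1]
          ring
      _ = K1 * (sD * (N0 : ℝ) ^ ε) := by rw [hsplit]
  have hc3 : (1 : ℝ) ≤ sD * (N0 : ℝ) ^ ε := by
    calc (1 : ℝ) = 1 * 1 := by ring
      _ ≤ sD * (N0 : ℝ) ^ ε := mul_le_mul hsD hNe zero_le_one (by linarith)
  calc (T.card : ℝ) ≤ K0 + K1 * (sD * (N0 : ℝ) ^ ε) := by linarith
    _ ≤ (K0 + K1 + 1) * (sD * (N0 : ℝ) ^ ε) := by nlinarith
    _ = (K0 + K1 + 1) * (4 : ℝ) ^ F.card * Real.sqrt D * (N0 : ℝ) ^ ε := by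
        rw [hsDe]
        ring

end Pool.Agent.Lib.AbcS
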