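import Pool.Agent.Lib.AbcS.Det
import Pool.Agent.Lib.Pabc14.CountQ

/-!
# The count for one scale, for large radicals, with a set of free primes
-/

open Finset Filter Topology

namespace Pool.Agent.Lib.AbcS

open Pool.Agent.Lib.Pabc2 Pool.Agent.Lib.Pabc1 Pool.Agent.Lib.Pabc8 Pool.Agent.Lib.Pabc14

/-- The constant of the height. -/
noncomputable def K0F (P : Par) (δ : ℝ) (j : ℕ) : ℝ :=
  7680 * P.w * 2 ^ j / δ + P.m0 * Real.exp P.a2 + 1

theorem count_parF (P : Par) {δ η : ℝ} (hδ : 0 < δ) (hη : 0 < η) (hη1 : η ≤ 1) (j : ℕ)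
    (hj : 1 ≤ η * 2 ^ j) (hP : P.Good (δ / 2 ^ j) (η / 2 ^ j)) :
    ∀ᶠ n : ℕ in atTop, ∀ (H v : ℝ) (q : ℕ) (l : Fin 3) (F : Finset ℕ) (T : Finset (ℕ × ℕ)),
      K0F P δ j * Real.log n ≤ H → 0 < q → δ * H ≤ Real.log q →
      Real.log ((∏ p ∈ q.primeFactors, p : ℕ) : ℝ) ≤ Real.log n →
      (∀ t ∈ T, rd t ≤ n ∧ BaseF P (Real.log n) H v η q l F t) →
      (T.card : ℝ) ≤ (2 : ℝ) ^ F.card * Real.exp ((v + 15 * η) * Real.log n) := by
  classical
  have hm : (1 : ℝ) ≤ P.m0 := by exact_mod_cast hP.hm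
  have hw2 : (2 : ℝ) ≤ P.w := by exact_mod_cast hP.hw
  have hw0 : (0 : ℝ) < P.w := by linarith
  obtain ⟨g, hg⟩ : ∃ g : ℝ, g = 2 ^ j := ⟨_, rfl⟩
  have hg1 : 1 ≤ g := by rw [hg]; exact one_le_pow₀ (by norm_num)
  have hg0 : 0 < g := by linarith
  obtain ⟨η', hη'⟩ : ∃ η' : ℝ, η' = η / g := ⟨_, rfl⟩
  obtain ⟨δ', hδ'⟩ : ∃ δ' : ℝ, δ' = δ / g := ⟨_, rfl⟩
  have hη'0 : 0 < η' := by rw [hη']; positivity
  have hδ'0 : 0 < δ' := by rw [hδ']; positivity
  have hη'η : η' ≤ η := by rw [hη']; exact div_le_self hη.le hg1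
  have hδ'δ : δ' ≤ δ := by rw [hδ']; exact div_le_self hδ.le hg1
  have hP' : P.Good δ' η' := by rw [hη', hδ', hg]; exact hP
  set ε : ℝ := η / (64 * P.w ^ 2 * g ^ 2) with hε
  have hε0 : 0 < ε := by positivity
  obtain ⟨C, hC1, hC⟩ := Pool.Agent.KeZhao.divisor_bound ε hε0
  have hlog : Tendsto (fun n : ℕ => Real.log (n : ℝ)) atTop atTop :=
    Real.tendsto_log_atTop.comp tendsto_natCast_atTop_atTop
  have hnat : (0 : ℝ) < nattr P + 1 := by positivity
  filter_upwards [hlog.eventually (ev_par P hδ'0 hη'0 hP' (nattr P + 1)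
    (8 * P.w * g * Real.log C) hnat),
    hlog.eventually_gt_atTop 1, Pabc11.ev_card, eventually_ge_atTop 1] with n h1 hx1 hcard hn1
    H v q l F T hH hq hq1 hq2 hT
  obtain ⟨g1, g2, g3, g4, g5, g6, g7⟩ := h1
  set x := Real.log (n : ℝ) with hx
  have hx0 : 0 < x := by linarith
  have hn0 : (0 : ℝ) < n := by exact_mod_cast hn1
  have hlC : 0 ≤ Real.log C := Real.log_nonneg hC1
  set Kp := ⌈x ^ (η' / 6)⌉₊ with hKp
  set Fc := ⌊((P.m0 * Kp : ℕ) : ℝ) * (Real.log (6 * x) + P.a1)⌋₊ + 1 with hF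
  set N := ⌊3 * (x / Real.log x)⌋₊ with hN
  set Δ : ℝ := C * Real.exp (ε * (8 * P.w * g * x)) with hΔ
  have hΔ1 : 1 ≤ Δ := by
    rw [hΔ]
    have : 1 ≤ Real.exp (ε * (8 * P.w * g * x)) := Real.one_le_exp (by positivity)
    nlinarith
  have hlogΔ : Real.log Δ = Real.log C + ε * (8 * P.w * g * x) := by
    rw [hΔ, Real.log_mul (by linarith) (Real.exp_pos _).ne', Real.log_exp]
  have hK0 : K0F P δ j * x = 7680 * P.w * g / δ * x + P.m0 * Real.exp P.a2 * x + x := by
    unfold K0F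
    rw [← hg]
    ring
  have hHx : x ≤ H ∧ 7680 * P.w * g / δ * x ≤ H ∧ P.m0 * Real.exp P.a2 * x ≤ H := by
    have e1 : 0 ≤ 7680 * P.w * g / δ * x := by positivity
    have e2 : 0 ≤ P.m0 * Real.exp P.a2 * x := by positivity
    refine ⟨by linarith, by linarith, by linarith⟩
  have hmain := count_detF P hδ hη hη1 j hj hP Kp N Fc x H v Δ hx0 g2 g3 (by
      rw [← hg]
      have := mul_le_mul_of_nonneg_left hHx.2.1 hδ.le
      have e1 : δ * (7680 * P.w * g / δ * x) = 7680 * P.w * g * x := by field_simp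
      linarith) hHx.2.2 (by
      have e0 := mul_le_mul_of_nonneg_right hδ'δ hx0.le
      have := mul_le_mul_of_nonneg_left hHx.1 hδ.le
      linarith) hΔ1 (by
      intro k hk hk2
      rw [← hg] at hk2
      refine (hC k hk).trans ?_
      rw [hΔ]
      apply mul_le_mul_of_nonneg_left _ (by linarith)
      have hk0 : (0 : ℝ) < k := by exact_mod_cast hk
      rw [Real.rpow_def_of_pos hk0, Real.exp_le_exp, mul_comm]
      exact mul_le_mul_of_nonneg_left hk2 hε0.le) (by
      rw [hlogΔ, ← hg]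
      have e1 : 4 * P.w * g * (ε * (8 * P.w * g * x)) = η * x / 2 := by
        rw [hε]
        field_simp
        ring
      have e2 : η' * x ≤ η * x := mul_le_mul_of_nonneg_right hη'η hx0.le
      nlinarith) (by
      rw [hF]
      push_cast
      have := Nat.lt_floor_add_one (((P.m0 * Kp : ℕ) : ℝ) * (Real.log (6 * x) + P.a1))
      push_cast at this
      exact this) q hq hq1 hq2 l F T (by
      intro t ht'
      obtain ⟨hrd, hB⟩ := hT t ht'
      refine ⟨hB, ?_⟩
      apply Nat.le_floor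
      have hsub : tpr P (H / x) t l ⊆ (Pabc2.N t).primeFactors := by
        intro p hp
        exact (Finset.mem_filter.mp (tpr_subset _ _ _ _ hp)).1
      apply hcard
      · intro p hp
        exact (Nat.prime_of_mem_primeFactors (hsub hp)).two_le
      · have e1 : ∏ p ∈ tpr P (H / x) t l, p ≤ rd t := by
          unfold rd
          apply Finset.prod_le_prod_of_subset_of_one_le' hsub
          intro p hp _
          exact (Nat.prime_of_mem_primeFactors hp).one_lt.le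
        have e2 := e1.trans hrd
        rw [← Nat.cast_prod]
        exact_mod_cast e2)
  refine hmain.trans ?_
  have hlx : 0 < Real.log x := Real.log_pos hx1
  have hηx : Real.exp (η' * x) ≤ Real.exp (η * x) := by
    rw [Real.exp_le_exp]
    exact mul_le_mul_of_nonneg_right hη'η hx0.le
  have e1 : (2 * Fc : ℝ) ^ N ≤ Real.exp (η * x) := by
    refine le_trans ?_ hηx
    calc (2 * Fc : ℝ) ^ N ≤ (x ^ (η' / 3)) ^ N := pow_le_pow_left₀ (by positivity) g7 N
      _ = Real.exp (Real.log x * (η' / 3) * N) := by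
          rw [Real.rpow_def_of_pos hx0, ← Real.exp_nat_mul]
          congr 1
          ring
      _ ≤ Real.exp (η' * x) := by
          rw [Real.exp_le_exp]
          have h3 : (N : ℝ) ≤ 3 * (x / Real.log x) := Nat.floor_le (by positivity)
          calc Real.log x * (η' / 3) * N ≤ Real.log x * (η' / 3) * (3 * (x / Real.log x)) :=
                mul_le_mul_of_nonneg_left h3 (by positivity)
            _ = η' * x := by field_simp
  have e2 : (nattr P : ℝ) ≤ Real.exp (η * x) := by linarith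
  calc (2 * Fc : ℝ) ^ N * (2 : ℝ) ^ F.card * nattr P * Real.exp ((v + 13 * η) * x)
      = (2 : ℝ) ^ F.card * ((2 * Fc : ℝ) ^ N * nattr P * Real.exp ((v + 13 * η) * x)) := by ring
    _ ≤ (2 : ℝ) ^ F.card *
          (Real.exp (η * x) * Real.exp (η * x) * Real.exp ((v + 13 * η) * x)) := by
        apply mul_le_mul_of_nonneg_left _ (by positivity)
        apply mul_le_mul_of_nonneg_right _ (Real.exp_pos _).le
        exact mul_le_mul e1 e2 (Nat.cast_nonneg _) (Real.exp_pos _).le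
    _ = (2 : ℝ) ^ F.card * Real.exp ((v + 15 * η) * x) := by
        rw [← Real.exp_add, ← Real.exp_add]
        congr 2
        ring

/-- The count for a fixed modulus, all scales. -/
theorem count_qF (δ η : ℝ) (hδ : 0 < δ) (hη : 0 < η) (hη1 : η ≤ 1) :
    ∃ K : ℝ, 1 ≤ K ∧ ∀ᶠ n : ℕ in atTop, ∀ (H v : ℝ) (q : ℕ) (l : Fin 3) (F : Finset ℕ)
      (T : Finset (ℕ × ℕ)),
      K * Real.log n ≤ H → 0 < q → δ * H ≤ Real.log q →
      Real.log ((∏ p ∈ q.primeFactors, p : ℕ) : ℝ) ≤ Real.log n →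
      (∀ t ∈ T, IsT t ∧ rd t ≤ n ∧ H ≤ ht t ∧ ht t ≤ 2 * H ∧ q ∣ comp t l ∧
        wo F t l ≤ 2 * v * Real.log n) →
      (T.card : ℝ) ≤ (2 : ℝ) ^ F.card * Real.exp ((v + 16 * η) * Real.log n) := by
  classical
  obtain ⟨j, hj0⟩ := exists_nat_gt (1 / η)
  have hj : 1 ≤ η * 2 ^ j := by
    have g1 : (j : ℝ) ≤ 2 ^ j := by
      have : j < 2 ^ j := Nat.lt_two_pow_self
      exact_mod_cast this.le
    have g2 : 1 / η ≤ 2 ^ j := by linarith
    rw [div_le_iff₀ hη] at g2
    linarith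
  choose f hf1 hf2 using exists_par (δ / 2 ^ j) (η / 2 ^ j) (by positivity) (by positivity)
  set a : ℕ → ℕ := fun i => Nat.rec 0 (fun _ b => (f b).a1) i with ha
  set P : ℕ → Par := fun i => f (a i) with hP
  have hPa : ∀ i, (P (i + 1)).a2 = (P i).a1 := fun i => by
    simp only [hP]
    rw [hf1]
  have hPg : ∀ i, (P i).Good (δ / 2 ^ j) (η / 2 ^ j) := fun i => hf2 _
  obtain ⟨N0, hN0⟩ := exists_nat_ge (1 / η)
  have hK0 : ∀ i, 1 ≤ K0F (P i) δ j := by
    intro i
    unfold K0F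
    have : 0 ≤ 7680 * ((P i).w : ℝ) * 2 ^ j / δ + (P i).m0 * Real.exp (P i).a2 := by positivity
    linarith
  set K : ℝ := 1 + ∑ i ∈ range N0, K0F (P i) δ j with hK
  have hsum0 : 0 ≤ ∑ i ∈ range N0, K0F (P i) δ j :=
    Finset.sum_nonneg (fun i _ => by linarith [hK0 i])
  refine ⟨K, by linarith, ?_⟩
  have hall : ∀ᶠ n : ℕ in atTop, ∀ i ∈ range N0, ∀ (H v : ℝ) (q : ℕ) (l : Fin 3)
      (F : Finset ℕ) (T : Finset (ℕ × ℕ)), K0F (P i) δ j * Real.log n ≤ H → 0 < q →
      δ * H ≤ Real.log q →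
      Real.log ((∏ p ∈ q.primeFactors, p : ℕ) : ℝ) ≤ Real.log n →
      (∀ t ∈ T, rd t ≤ n ∧ BaseF (P i) (Real.log n) H v η q l F t) →
      (T.card : ℝ) ≤ (2 : ℝ) ^ F.card * Real.exp ((v + 15 * η) * Real.log n) :=
    (Filter.eventually_all_finset _).mpr (fun i _ => count_parF (P i) hδ hη hη1 j hj (hPg i))
  have hlog : Tendsto (fun n : ℕ => Real.log (n : ℝ)) atTop atTop :=
    Real.tendsto_log_atTop.comp tendsto_natCast_atTop_atTop
  have hexp : Tendsto (fun n : ℕ => Real.exp (η * Real.log (n : ℝ))) atTop atTop :=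
    Real.tendsto_exp_atTop.comp (hlog.const_mul_atTop hη)
  filter_upwards [hall, hlog.eventually_gt_atTop 0, hexp.eventually_ge_atTop (N0 : ℝ)] with n h1 hx0
    h3 H v q l F T hH hq hq1 hq2 hT
  set x := Real.log (n : ℝ) with hx
  have hH0 : 0 < H := by
    have : 0 < K * x := mul_pos (by linarith) hx0
    linarith
  have hcov : T ⊆ (range N0).biUnion (fun i => T.filter (fun t =>
      ∑ p ∈ band (P i) (H / x) t l, Real.log (p : ℝ) ≤ η * x)) := by
    intro t ht'
    obtain ⟨g1, g2, g3, g4, g5, g6⟩ := hT t ht'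
    obtain ⟨i, hi, hi2⟩ := Pool.Agent.Lib.Pabc14.exists_light P hPa (fun i => (hPg i).ha) hη hx0
      (show 0 < H / x by positivity) hN0 (l := l) (tw_le_log g2)
    rw [Finset.mem_biUnion]
    exact ⟨i, Finset.mem_range.mpr hi, Finset.mem_filter.mpr ⟨ht', hi2⟩⟩
  have hE : 0 ≤ (2 : ℝ) ^ F.card * Real.exp ((v + 15 * η) * x) := by positivity
  calc (T.card : ℝ) ≤ ∑ i ∈ range N0, ((T.filter (fun t =>
        ∑ p ∈ band (P i) (H / x) t l, Real.log (p : ℝ) ≤ η * x)).card : ℝ) := by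
        exact_mod_cast (Finset.card_le_card hcov).trans Finset.card_biUnion_le
    _ ≤ ∑ _i ∈ range N0, (2 : ℝ) ^ F.card * Real.exp ((v + 15 * η) * x) := by
        apply Finset.sum_le_sum
        intro i hi
        apply h1 i hi H v q l F _ _ hq hq1 hq2
        · intro t ht'
          rw [Finset.mem_filter] at ht'
          obtain ⟨g1, g2, g3, g4, g5, g6⟩ := hT t ht'.1
          exact ⟨g2, g1, tw_le_log g2, g3, g4, g5, g6, ht'.2⟩
        · refine le_trans ?_ hH
          apply mul_le_mul_of_nonneg_right _ hx0.le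
          have g1 := Finset.single_le_sum (f := fun i => K0F (P i) δ j)
            (fun i _ => by linarith [hK0 i]) hi
          linarith
    _ = N0 * ((2 : ℝ) ^ F.card * Real.exp ((v + 15 * η) * x)) := by
        rw [Finset.sum_const, Finset.card_range, nsmul_eq_mul]
    _ ≤ Real.exp (η * x) * ((2 : ℝ) ^ F.card * Real.exp ((v + 15 * η) * x)) :=
        mul_le_mul_of_nonneg_right h3 hE
    _ = (2 : ℝ) ^ F.card * Real.exp ((v + 16 * η) * x) := by
        rw [mul_left_comm, ← Real.exp_add]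
        congr 2
        ring

end Pool.Agent.Lib.AbcS
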