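import Pool.Agent.Lib.AbcS.T3
import Pool.Agent.Lib.AbcL.Ready
import Pool.Agent.Lib.AbcL.Cases

/-!
# The structures of type `K`, with a set of free primes
-/

open Finset Filter Topology

namespace Pool.Agent.Lib.AbcS

open Pool.Agent.Lib.Pabc2 Pool.Agent.Lib.Pabc1 Pool.Agent.Lib.AbcL

/-- The structural hypothesis of the root class count; the primes of `F` are free. -/
def HasKF (n : ℕ) (F : Finset ℕ) (d σ c : ℝ) (k : ℕ) (t : ℕ × ℕ) : Prop :=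
  ∃ S ⊆ (N t).primeFactors, ∃ l : Fin 3, ((∏ p ∈ S \ F, p : ℕ) : ℝ) ≤ (n : ℝ) ^ σ ∧
    d ≤ ∑ p ∈ S.filter (fun p => lab t p = l), u t p ∧
    ∃ H ⊆ (N t).primeFactors \ S, H.card ≤ k ∧
      ∑ p ∈ ((N t).primeFactors \ (S ∪ H)).filter (fun p => lab t p ≠ l), u t p ≤ c

theorem HasKF.mono {n : ℕ} {F : Finset ℕ} {d σ c c' : ℝ} {k : ℕ} {t : ℕ × ℕ}
    (h : HasKF n F d σ c k t) (hc : c ≤ c') : HasKF n F d σ c' k t := by
  obtain ⟨S, hS, l, h1, h2, H, hH, h3, h4⟩ := h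
  exact ⟨S, hS, l, h1, h2, H, hH, h3, h4.trans hc⟩

/-- The count of the structures of type `K`. -/
theorem rootKF (A : ℝ) (hA : 0 ≤ A) : ∀ (d σ η : ℝ) (k : ℕ), 0 < d → d ≤ 1 → 0 < η →
    ∃ c : ℝ, 0 < c ∧ ∃ K : ℝ, ∀ᶠ n : ℕ in atTop, ∀ (F : Finset ℕ) (T : Finset (ℕ × ℕ)),
      (∀ t ∈ T, IsT t ∧ rd t ≤ n ∧ K * Real.log n ≤ ht t ∧ ht t ≤ (n : ℝ) ^ A ∧
        HasKF n F d σ c k t) →
      (T.card : ℝ) ≤ (2 : ℝ) ^ F.card * (n : ℝ) ^ (σ + η) := by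
  classical
  intro d σ η k hd hd1 hη
  obtain ⟨c, hc, K, hK⟩ := fibreK A hA d (η / 2) k hd hd1 (by positivity)
  refine ⟨c, hc, K, ?_⟩
  have hlim2 : Tendsto (fun n : ℕ => (n : ℝ)) atTop atTop := tendsto_natCast_atTop_atTop
  have hbig : ∀ᶠ n : ℕ in atTop, (3 : ℝ) ≤ (n : ℝ) ^ (η / 2) :=
    ((tendsto_rpow_atTop (show 0 < η / 2 by positivity)).comp hlim2).eventually_ge_atTop _
  filter_upwards [hK, hbig, eventually_ge_atTop 1] with n h1 h6 hn1 F T hT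
  have hn0 : (0 : ℝ) < n := by exact_mod_cast hn1
  have hn1' : (1 : ℝ) ≤ n := by exact_mod_cast hn1
  choose! S hS l hSz hSu H hHs hHc hHu using fun t (ht' : t ∈ T) => (hT t ht').2.2.2.2
  set f : ℕ × ℕ → Finset ℕ × Fin 3 := fun t => (S t, l t) with hf
  set SS := T.image S with hSS
  have hmaps : ∀ t ∈ T, f t ∈ SS ×ˢ (Finset.univ : Finset (Fin 3)) := by
    intro t ht'
    rw [hf, Finset.mem_product]
    exact ⟨Finset.mem_image_of_mem _ ht', Finset.mem_univ _⟩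
  have hSScard : (SS.card : ℝ) ≤ (2 : ℝ) ^ F.card * (n : ℝ) ^ σ := by
    apply card_setsF (by positivity) F SS
    intro S' hS'
    obtain ⟨t, ht', rfl⟩ := Finset.mem_image.mp hS'
    refine ⟨fun p hp => Nat.prime_of_mem_primeFactors (hS t ht' hp), ?_⟩
    have := hSz t ht'
    rw [← Nat.cast_prod]
    exact this
  have hfib : ∀ y ∈ SS ×ˢ (Finset.univ : Finset (Fin 3)),
      (((T.filter (fun t => f t = y)).card : ℕ) : ℝ) ≤ (n : ℝ) ^ (η / 2) := by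
    intro y _
    apply h1 y.1 y.2
    intro t ht'
    rw [Finset.mem_filter] at ht'
    obtain ⟨ht', e1⟩ := ht'
    rw [← e1]
    obtain ⟨b1, b2, b3, b4, -⟩ := hT t ht'
    exact ⟨b1, b2, b3, b4, hS t ht', hSu t ht', H t, hHs t ht', hHc t ht', hHu t ht'⟩
  rw [Finset.card_eq_sum_card_fiberwise (f := f) hmaps]
  push_cast
  refine (Finset.sum_le_sum hfib).trans ?_
  rw [Finset.sum_const, Finset.card_product, Finset.card_univ, Fintype.card_fin, nsmul_eq_mul]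
  push_cast
  have hE : 0 ≤ (n : ℝ) ^ (η / 2) := by positivity
  have hE2 : 0 ≤ (n : ℝ) ^ σ := by positivity
  calc (SS.card : ℝ) * 3 * (n : ℝ) ^ (η / 2)
      ≤ ((2 : ℝ) ^ F.card * (n : ℝ) ^ σ) * (n : ℝ) ^ (η / 2) * (n : ℝ) ^ (η / 2) := by
        apply mul_le_mul_of_nonneg_right _ hE
        exact mul_le_mul hSScard h6 (by norm_num) (by positivity)
    _ = (2 : ℝ) ^ F.card * (n : ℝ) ^ (σ + η) := by
        rw [mul_assoc, mul_assoc, ← Real.rpow_add hn0, ← Real.rpow_add hn0]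
        congr 2
        ring

end Pool.Agent.Lib.AbcS
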