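import Pool.Agent.Lib.AbcS.ParC
import Pool.Agent.Lib.Pabc14.CountT3H

/-!
# The count with a modulus in one member, all heights, with a set of free primes
-/

open Finset Filter Topology

namespace Pool.Agent.Lib.AbcS

open Pool.Agent.Lib.Pabc2 Pool.Agent.Lib.Pabc1 Pool.Agent.Lib.Pabc8 Pool.Agent.Lib.Pabc14

/-- One member has a part whose primes outside `F` have product at most `n ^ ρ` and of logarithm at
least `d` times the height; the primes outside `F` of the two other members have product at most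
`n ^ (2 v)`. -/
def HasQF (n : ℕ) (F : Finset ℕ) (d ρ v : ℝ) (t : ℕ × ℕ) : Prop :=
  ∃ l : Fin 3, ∃ Q ⊆ (N t).primeFactors, (∀ p ∈ Q, lab t p = l) ∧
    ((∏ p ∈ Q \ F, p : ℕ) : ℝ) ≤ (n : ℝ) ^ ρ ∧ d ≤ ∑ p ∈ Q, u t p ∧
    wo F t l ≤ 2 * v * Real.log n

/-- The number of sets of primes whose part outside `F` is small. -/
theorem card_setsF {X : ℝ} (hX : 0 ≤ X) (F : Finset ℕ) (SS : Finset (Finset ℕ))
    (h : ∀ S ∈ SS, (∀ p ∈ S, p.Prime) ∧ (∏ p ∈ S \ F, (p : ℝ)) ≤ X) :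
    (SS.card : ℝ) ≤ (2 : ℝ) ^ F.card * X := by
  classical
  have h1 : SS ⊆ ((SS.image (fun S => S \ F)) ×ˢ F.powerset).image (fun z => z.1 ∪ z.2) := by
    intro S hS
    rw [Finset.mem_image]
    refine ⟨(S \ F, S ∩ F), ?_, ?_⟩
    · rw [Finset.mem_product]
      exact ⟨Finset.mem_image_of_mem _ hS, Finset.mem_powerset.mpr Finset.inter_subset_right⟩
    · simp only
      rw [Finset.sdiff_union_inter]
  have h2 : ((SS.image (fun S => S \ F)).card : ℝ) ≤ X := by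
    apply Pabc11.cb_card_sets hX
    intro S hS
    obtain ⟨S', hS', rfl⟩ := Finset.mem_image.mp hS
    obtain ⟨g1, g2⟩ := h S' hS'
    exact ⟨fun p hp => g1 p (Finset.mem_sdiff.mp hp).1, g2⟩
  have h3 := (Finset.card_le_card h1).trans Finset.card_image_le
  rw [Finset.card_product, Finset.card_powerset] at h3
  have h4 : (SS.card : ℝ) ≤ ((SS.image (fun S => S \ F)).card : ℝ) * (2 : ℝ) ^ F.card := by
    exact_mod_cast h3
  calc (SS.card : ℝ) ≤ ((SS.image (fun S => S \ F)).card : ℝ) * (2 : ℝ) ^ F.card := h4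
    _ ≤ X * (2 : ℝ) ^ F.card := mul_le_mul_of_nonneg_right h2 (by positivity)
    _ = (2 : ℝ) ^ F.card * X := mul_comm _ _

/-- The condition of one class. -/
def ClsF (K δ v : ℝ) (n : ℕ) (F : Finset ℕ) (H : ℝ) (l : Fin 3) (M : ℕ) (t : ℕ × ℕ) : Prop :=
  (K * Real.log n ≤ H ∧ 0 < M ∧ δ * H ≤ Real.log M ∧
    Real.log ((∏ p ∈ M.primeFactors, p : ℕ) : ℝ) ≤ Real.log n) ∧
  H ≤ ht t ∧ ht t ≤ 2 * H ∧ M ∣ comp t l ∧ wo F t l ≤ 2 * v * Real.log n

theorem count_T3F (d ρ v η : ℝ) (hd : 0 < d) (hη : 0 < η) (hη1 : η ≤ 1) :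
    ∃ K : ℝ, 1 ≤ K ∧ ∀ᶠ n : ℕ in atTop, ∀ (F : Finset ℕ) (T : Finset (ℕ × ℕ)),
      (∀ t ∈ T, IsT t ∧ rd t ≤ n ∧ K * Real.log n ≤ ht t ∧ HasQF n F d ρ v t) →
      (T.card : ℝ) ≤ (4 : ℝ) ^ F.card * (n : ℝ) ^ (ρ + v + η) := by
  classical
  set e : ℝ := η / 20 with he
  have he0 : 0 < e := by positivity
  have he1 : e ≤ 1 := by rw [he]; linarith
  obtain ⟨K1, hK1, hq⟩ := count_qF (d / 2) e (by positivity) he0 he1
  obtain ⟨Km, hKm⟩ := exists_nat_ge (max 1 (2 / d))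
  have hKm1 : 1 ≤ Km := by
    have : (1 : ℝ) ≤ Km := (le_max_left _ _).trans hKm
    exact_mod_cast this
  have hKm0 : (0 : ℝ) < Km := by exact_mod_cast hKm1
  have hKm2 : 1 / (Km : ℝ) ≤ d / 2 := by
    have h1 : 2 / d ≤ Km := (le_max_right _ _).trans hKm
    rw [div_le_iff₀ hd] at h1
    rw [div_le_iff₀ hKm0]
    linarith
  obtain ⟨C, hC1, hC⟩ := Pabc11.cb_pow_card_le (BconD Km) e (Pabc11.BconD_ge_one Km) he0
  refine ⟨2 * K1, by linarith, ?_⟩
  have hlog : Tendsto (fun n : ℕ => Real.log (n : ℝ)) atTop atTop :=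
    Real.tendsto_log_atTop.comp tendsto_natCast_atTop_atTop
  have hlin : ∀ᶠ x : ℝ in atTop, 3 * C * (5 * x + 1) ≤ Real.exp (e * x) := by
    have t1 : Tendsto (fun x : ℝ => e * x) atTop atTop := tendsto_id.const_mul_atTop he0
    have h1 : ∀ᶠ y : ℝ in atTop, (3 * C * (5 / e) + 3 * C) * y ≤ Real.exp y := by
      have h2 := (Real.tendsto_exp_div_pow_atTop 1).eventually_ge_atTop (3 * C * (5 / e) + 3 * C)
      filter_upwards [h2, eventually_gt_atTop 0] with y hy hy0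
      rw [pow_one, le_div_iff₀ hy0] at hy
      exact hy
    filter_upwards [t1.eventually h1, eventually_ge_atTop 1, t1.eventually_ge_atTop 1] with x hx
      hx1 hx2
    refine le_trans ?_ hx
    have e1 : (3 * C * (5 / e) + 3 * C) * (e * x) = 3 * C * (5 * x) + 3 * C * (e * x) := by
      field_simp
    rw [e1]
    have e2 : 3 * C * 1 ≤ 3 * C * (e * x) := mul_le_mul_of_nonneg_left hx2 (by linarith)
    linarith
  filter_upwards [hq, Pabc11.height_three, hlog.eventually hlin, hlog.eventually_ge_atTop 1,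
    eventually_ge_atTop 1] with n g1 g2 g3 hx1 hn1 F T hT
  set x := Real.log (n : ℝ) with hx
  have hx0 : 0 < x := by linarith
  have hn0 : (0 : ℝ) < n := by exact_mod_cast hn1
  have hn1' : (1 : ℝ) ≤ n := by exact_mod_cast hn1
  -- the data of a triple
  have hdat : ∀ t, ∃ (l : Fin 3) (Q : Finset ℕ), t ∈ T → (Q ⊆ (N t).primeFactors ∧
      (∀ p ∈ Q, lab t p = l) ∧ ((∏ p ∈ Q \ F, p : ℕ) : ℝ) ≤ (n : ℝ) ^ ρ ∧ d ≤ ∑ p ∈ Q, u t p ∧
      wo F t l ≤ 2 * v * x) := by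
    intro t
    by_cases ht' : t ∈ T
    · obtain ⟨l, Q, h1, h2, h3, h4, h5⟩ := (hT t ht').2.2.2
      exact ⟨l, Q, fun _ => ⟨h1, h2, h3, h4, h5⟩⟩
    · exact ⟨0, ∅, fun h => absurd h ht'⟩
  choose L Q hLQ using hdat
  set SS := T.image Q with hSS
  set J := ⌊5 * x⌋₊ + 1 with hJ
  -- the moduli
  have hMM : ∀ (j : ℕ) (S : Finset ℕ), ∃ MM : Finset ℕ, S ∈ SS →
      ((MM.card : ℝ) ≤ BconD Km ^ S.card ∧ (∀ M ∈ MM, 0 < M ∧ M.primeFactors ⊆ S) ∧
      ∀ D : ℕ, D ≠ 0 → D.primeFactors = S → Real.log D ≤ 3 * (2 : ℝ) ^ j →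
        ∃ M ∈ MM, M ∣ D ∧ Real.log D - (2 : ℝ) ^ j / Km ≤ Real.log M) := by
    intro j S
    by_cases hS : S ∈ SS
    · obtain ⟨t, ht', rfl⟩ := Finset.mem_image.mp hS
      obtain ⟨MM, h1, h2, h3⟩ := Pabc11.exists_moduli Km hKm1 ((2 : ℝ) ^ j) (by positivity) (Q t)
        (fun p hp => Nat.prime_of_mem_primeFactors ((hLQ t ht').1 hp))
      exact ⟨MM, fun _ => ⟨h1, h2, h3⟩⟩
    · exact ⟨∅, fun h => absurd h hS⟩
  choose MM hMMs using hMM
  have hQrd : ∀ t ∈ T, (∏ p ∈ Q t, p) ≤ n := by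
    intro t ht'
    obtain ⟨h1, -⟩ := hLQ t ht'
    refine le_trans ?_ (hT t ht').2.1
    unfold rd
    apply Finset.prod_le_prod_of_subset_of_one_le' h1
    intro p hp _
    exact (Nat.prime_of_mem_primeFactors hp).one_lt.le
  have hSSp : ∀ S ∈ SS, (∀ p ∈ S, p.Prime) ∧ (∏ p ∈ S \ F, (p : ℝ)) ≤ (n : ℝ) ^ ρ := by
    intro S hS
    obtain ⟨t, ht', rfl⟩ := Finset.mem_image.mp hS
    obtain ⟨h1, h2, h3, h4, h5⟩ := hLQ t ht'
    refine ⟨fun p hp => Nat.prime_of_mem_primeFactors (h1 hp), ?_⟩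
    rw [← Nat.cast_prod]
    exact h3
  have hSScard : (SS.card : ℝ) ≤ (2 : ℝ) ^ F.card * (n : ℝ) ^ ρ :=
    card_setsF (by positivity) F SS hSSp
  -- the classes
  have hcls : ∀ (j : ℕ) (l : Fin 3) (M : ℕ),
      ((T.filter (fun t => ClsF K1 (d / 2) v n F ((2 : ℝ) ^ j) l M t)).card : ℝ) ≤
        (2 : ℝ) ^ F.card * Real.exp ((v + 16 * e) * x) := by
    intro j l M
    by_cases hM : K1 * Real.log n ≤ (2 : ℝ) ^ j ∧ 0 < M ∧ d / 2 * (2 : ℝ) ^ j ≤ Real.log M ∧
        Real.log ((∏ p ∈ M.primeFactors, p : ℕ) : ℝ) ≤ Real.log n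
    · apply g1 ((2 : ℝ) ^ j) v M l F _ hM.1 hM.2.1 hM.2.2.1 hM.2.2.2
      intro t ht'
      rw [Finset.mem_filter] at ht'
      obtain ⟨h1, h2, h3, h4⟩ := hT t ht'.1
      obtain ⟨-, h5, h6, h7, h8⟩ := ht'.2
      exact ⟨h1, h2, h5, h6, h7, h8⟩
    · have : T.filter (fun t => ClsF K1 (d / 2) v n F ((2 : ℝ) ^ j) l M t) = ∅ := by
        rw [Finset.filter_eq_empty_iff]
        intro t _ h
        exact hM h.1
      rw [this, Finset.card_empty, Nat.cast_zero]
      positivity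
  have hcov : T ⊆ (range J ×ˢ (Finset.univ : Finset (Fin 3)) ×ˢ SS).biUnion (fun z =>
      (MM z.1 z.2.2).biUnion (fun M =>
        T.filter (fun t => ClsF K1 (d / 2) v n F ((2 : ℝ) ^ z.1) z.2.1 M t))) := by
    intro t ht'
    obtain ⟨hI, hrd, hht, -⟩ := hT t ht'
    obtain ⟨h1, h2, h3, h4, h5⟩ := hLQ t ht'
    have hHt : 1 ≤ ht t := by nlinarith
    -- the dyadic height
    set m := ⌊ht t⌋₊ with hm
    have hm1 : 1 ≤ m := Nat.le_floor (by exact_mod_cast hHt)
    set j := Nat.log 2 m with hj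
    have hj1 : (2 : ℝ) ^ j ≤ ht t := by
      have e1 : 2 ^ j ≤ m := Nat.pow_log_le_self 2 (by omega)
      have e2 : ((2 ^ j : ℕ) : ℝ) ≤ m := by exact_mod_cast e1
      push_cast at e2
      exact e2.trans (Nat.floor_le (by linarith))
    have hj2 : ht t ≤ 2 * (2 : ℝ) ^ j := by
      have e1 : m < 2 ^ (j + 1) := Nat.lt_pow_succ_log_self (by norm_num) m
      have e2 : ((m + 1 : ℕ) : ℝ) ≤ ((2 ^ (j + 1) : ℕ) : ℝ) := by exact_mod_cast e1
      push_cast at e2
      have e3 : ht t < m + 1 := Nat.lt_floor_add_one _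
      rw [pow_succ] at e2
      linarith
    have hjJ : j < J := by
      rw [hJ, Nat.lt_succ_iff]
      apply Nat.le_floor
      have e1 := g2 t hI hrd
      have e2 : (j : ℝ) * Real.log 2 ≤ 3 * x := by
        have e3 : Real.log ((2 : ℝ) ^ j) ≤ Real.log ((n : ℝ) ^ 3) :=
          Real.log_le_log (by positivity) (hj1.trans e1)
        rw [Real.log_pow, Real.log_pow] at e3
        exact_mod_cast e3
      have e4 : (0.6931471803 : ℝ) < Real.log 2 := Real.log_two_gt_d9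
      have e5 : (j : ℝ) * (3 / 5) ≤ j * Real.log 2 :=
        mul_le_mul_of_nonneg_left (by linarith) (Nat.cast_nonneg _)
      linarith
    have hS : Q t ∈ SS := Finset.mem_image_of_mem _ ht'
    obtain ⟨p1, p2, p3, p4⟩ := part_facts hI h1 h2
    obtain ⟨c1, c2, c3⟩ := hMMs j (Q t) hS
    have hpl : Real.log (part t (Q t)) ≤ 3 * (2 : ℝ) ^ j := by
      have e1 : Real.log (part t (Q t)) ≤ Real.log (comp t (L t)) := by
        apply Real.log_le_log
        · exact_mod_cast Nat.pos_of_ne_zero p1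
        · exact_mod_cast Nat.le_of_dvd (comp_pos hI _) p3
      have e2 := log_comp_le hI (L t)
      have e3 : (0 : ℝ) < 2 ^ j := by positivity
      linarith
    obtain ⟨M, hM, hMd, hMl⟩ := c3 _ p1 p2 hpl
    rw [Finset.mem_biUnion]
    refine ⟨(j, L t, Q t), ?_, ?_⟩
    · rw [Finset.mem_product, Finset.mem_product]
      exact ⟨Finset.mem_range.mpr hjJ, Finset.mem_univ _, hS⟩
    · rw [Finset.mem_biUnion]
      refine ⟨M, hM, Finset.mem_filter.mpr ⟨ht', ⟨?_, (c2 M hM).1, ?_, ?_⟩, hj1, hj2,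
        hMd.trans p3, h5⟩⟩
      · simp only
        have : 2 * K1 * x ≤ ht t := hht
        linarith
      · simp only
        have e1 : d * (2 : ℝ) ^ j ≤ Real.log (part t (Q t)) := by
          rw [p4]
          exact mul_le_mul h4 hj1 (by positivity) (by linarith)
        have e2 : (2 : ℝ) ^ j / Km ≤ d / 2 * (2 : ℝ) ^ j := by
          calc (2 : ℝ) ^ j / Km = 1 / Km * 2 ^ j := by ring
            _ ≤ d / 2 * (2 : ℝ) ^ j := mul_le_mul_of_nonneg_right hKm2 (by positivity)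
        linarith
      · have e1 : (∏ p ∈ M.primeFactors, p) ≤ ∏ p ∈ Q t, p := by
          apply Finset.prod_le_prod_of_subset_of_one_le' (c2 M hM).2
          intro p hp _
          exact (Nat.prime_of_mem_primeFactors (h1 hp)).one_lt.le
        have e2 : ((∏ p ∈ M.primeFactors, p : ℕ) : ℝ) ≤ (n : ℝ) := by
          exact_mod_cast e1.trans (hQrd t ht')
        have e3 : (0 : ℝ) < ((∏ p ∈ M.primeFactors, p : ℕ) : ℝ) := by
          exact_mod_cast Finset.prod_pos (fun p hp => (Nat.prime_of_mem_primeFactors hp).pos)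
        exact Real.log_le_log e3 e2
  have hMMcard : ∀ j, ∀ S ∈ SS, ((MM j S).card : ℝ) ≤ C * Real.exp (e * x) := by
    intro j S hS
    refine (hMMs j S hS).1.trans ?_
    refine (hC S (fun p hp => ((hSSp S hS).1 p hp).two_le)).trans ?_
    apply mul_le_mul_of_nonneg_left _ (by linarith)
    have h1 : (0 : ℝ) ≤ ∏ p ∈ S, (p : ℝ) := Finset.prod_nonneg (fun p _ => Nat.cast_nonneg p)
    have h2 : ∏ p ∈ S, (p : ℝ) ≤ n := by
      obtain ⟨t, ht', rfl⟩ := Finset.mem_image.mp hS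
      rw [← Nat.cast_prod]
      exact_mod_cast hQrd t ht'
    calc (∏ p ∈ S, (p : ℝ)) ^ e ≤ (n : ℝ) ^ e := Real.rpow_le_rpow h1 h2 he0.le
      _ = Real.exp (e * x) := by
          rw [Real.rpow_def_of_pos hn0, ← hx, mul_comm]
  have hJ1 : (J : ℝ) ≤ 5 * x + 1 := by
    rw [hJ]
    push_cast
    have := Nat.floor_le (show 0 ≤ 5 * x by positivity)
    linarith
  obtain ⟨f2, hf2⟩ : ∃ f2 : ℝ, f2 = (2 : ℝ) ^ F.card := ⟨_, rfl⟩
  have hf20 : 0 < f2 := by rw [hf2]; positivity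
  have hf4 : (4 : ℝ) ^ F.card = f2 * f2 := by
    rw [hf2, ← mul_pow]
    norm_num
  rw [← hf2] at hSScard hcls
  have hB : 0 < f2 * Real.exp ((v + 16 * e) * x) := by positivity
  calc (T.card : ℝ) ≤ ∑ z ∈ range J ×ˢ (Finset.univ : Finset (Fin 3)) ×ˢ SS,
        ∑ M ∈ MM z.1 z.2.2,
          ((T.filter (fun t => ClsF K1 (d / 2) v n F ((2 : ℝ) ^ z.1) z.2.1 M t)).card : ℝ) := by
        have h1 := (Finset.card_le_card hcov).trans Finset.card_biUnion_le
        have h2 := h1.trans (Finset.sum_le_sum (fun z _ => Finset.card_biUnion_le))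
        exact_mod_cast h2
    _ ≤ ∑ z ∈ range J ×ˢ (Finset.univ : Finset (Fin 3)) ×ˢ SS,
          C * Real.exp (e * x) * (f2 * Real.exp ((v + 16 * e) * x)) := by
        apply Finset.sum_le_sum
        intro z hz
        rw [Finset.mem_product, Finset.mem_product] at hz
        calc ∑ M ∈ MM z.1 z.2.2,
              ((T.filter (fun t => ClsF K1 (d / 2) v n F ((2 : ℝ) ^ z.1) z.2.1 M t)).card : ℝ)
            ≤ ∑ _M ∈ MM z.1 z.2.2, f2 * Real.exp ((v + 16 * e) * x) :=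
              Finset.sum_le_sum (fun M _ => hcls _ _ _)
          _ = ((MM z.1 z.2.2).card : ℝ) * (f2 * Real.exp ((v + 16 * e) * x)) := by
              rw [Finset.sum_const, nsmul_eq_mul]
          _ ≤ _ := mul_le_mul_of_nonneg_right (hMMcard _ _ hz.2.2) hB.le
    _ = (J * (3 * SS.card)) * (C * Real.exp (e * x) * (f2 * Real.exp ((v + 16 * e) * x))) := by
        rw [Finset.sum_const, nsmul_eq_mul, Finset.card_product, Finset.card_product,
          Finset.card_range, Finset.card_univ, Fintype.card_fin]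
        push_cast
        ring
    _ ≤ ((5 * x + 1) * (3 * (f2 * (n : ℝ) ^ ρ))) *
          (C * Real.exp (e * x) * (f2 * Real.exp ((v + 16 * e) * x))) := by
        apply mul_le_mul_of_nonneg_right _ (by positivity)
        apply mul_le_mul hJ1 _ (by positivity) (by positivity)
        linarith
    _ = (f2 * f2) * ((3 * C * (5 * x + 1)) * ((n : ℝ) ^ ρ * (Real.exp (e * x) *
          Real.exp ((v + 16 * e) * x)))) := by ring
    _ ≤ (f2 * f2) * (Real.exp (e * x) * ((n : ℝ) ^ ρ * (Real.exp (e * x) *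
          Real.exp ((v + 16 * e) * x)))) := by
        apply mul_le_mul_of_nonneg_left _ (by positivity)
        exact mul_le_mul_of_nonneg_right g3 (by positivity)
    _ = (4 : ℝ) ^ F.card * Real.exp (x * (ρ + v + 18 * e)) := by
        rw [hf4, Real.rpow_def_of_pos hn0, ← hx, ← Real.exp_add, ← Real.exp_add, ← Real.exp_add]
        congr 2
        ring
    _ ≤ (4 : ℝ) ^ F.card * (n : ℝ) ^ (ρ + v + η) := by
        apply mul_le_mul_of_nonneg_left _ (by positivity)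
        rw [Real.rpow_def_of_pos hn0, Real.exp_le_exp]
        apply mul_le_mul_of_nonneg_left _ hx0.le
        rw [he]
        linarith

end Pool.Agent.Lib.AbcS
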