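import Pool.Agent.Lib.AbcS.BoxF
import Pool.Agent.Lib.Pabc11.Final

/-!
# Tall triples with a large divisor, the primes of `F` are free
-/

open Finset Filter Topology

namespace Pool.Agent.Lib.AbcS

open Pool.Agent.Lib.Pabc2 Pool.Agent.Lib.Pabc1 Pool.Agent.Lib.Pabc11

/-- One label. -/
theorem cq_labelF {w r nn n q : ℕ} {H W x B' KB z : ℝ} (l : Fin 3) (F0 : Finset ℕ)
    (T : Finset (ℕ × ℕ))
    (hw : 1 ≤ w) (hq : 1 ≤ q) (hx : 1 ≤ x) (hr : 6000 * (w * q : ℝ) ≤ r)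
    (hH : 1000 * (w * q) * (r * x) ≤ H)
    (hWr : (r : ℝ) ≤ 2 * w * W) (hW1 : W ≤ r * x)
    (hW2 : 884736 * ((w : ℝ) ^ 2 * q) * W ≤ r * x)
    (hn : x = Real.log n) (hn1 : 1 ≤ n) (hz : 0 ≤ z)
    (hB' : (2 ^ (w + 1) * BconD (32 * q)) ^ nn * Real.exp (2 * x / w) ≤ B')
    (hKB : ∀ S : Finset ℕ, (∀ p ∈ S, p.Prime) → (∏ p ∈ S, (p : ℝ)) ≤ n →
      BconD (2 * q) ^ S.card ≤ KB)
    (hT : ∀ t ∈ T, IsT t ∧ rd t ≤ n ∧ ht t ≤ 2 * H ∧
      Appr r W t ∧ (N t).primeFactors.card ≤ nn ∧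
      ∃ D, D ∣ comp t l ∧ (∏ p ∈ D.primeFactors \ F0, (p : ℝ)) ≤ z ∧ H / q ≤ Real.log D) :
    (T.card : ℝ) ≤ 2 ^ F0.card * z * (KB * B') := by
  classical
  have hn1' : (1 : ℝ) ≤ n := by exact_mod_cast hn1
  have hB := BconD_ge_one (32 * q)
  have hB'0 : 0 ≤ B' := le_trans (by positivity) hB'
  have hw' : (1 : ℝ) ≤ w := by exact_mod_cast hw
  have hq' : (1 : ℝ) ≤ q := by exact_mod_cast hq
  have hwq : (1 : ℝ) ≤ w * q := by nlinarith
  have hr0 : (0 : ℝ) < r := by linarith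
  have hrx0 : (0 : ℝ) < r * x := by positivity
  have hH0 : 0 < H := by
    have : 0 < 1000 * (w * q) * (r * x) := by positivity
    linarith
  have hKB0 : 0 ≤ KB := le_trans (pow_nonneg (BconD_pos (2 * q)).le _)
    (hKB ∅ (by simp) (by
      simp only [Finset.prod_empty]
      exact hn1'))
  choose! D hD using fun t (ht : t ∈ T) => (hT t ht).2.2.2.2.2
  have hSS : ∀ S ∈ T.image (fun t => (D t).primeFactors),
      (∀ p ∈ S, p.Prime) ∧ (∏ p ∈ S \ F0, (p : ℝ)) ≤ z := by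
    intro S hS
    obtain ⟨t, ht, rfl⟩ := Finset.mem_image.1 hS
    exact ⟨fun p hp => Nat.prime_of_mem_primeFactors hp, (hD t ht).2.1⟩
  have hcount := card_setsF hz F0 _ hSS
  have hfib : ∀ S ∈ T.image (fun t => (D t).primeFactors),
      ((T.filter (fun t => (D t).primeFactors = S)).card : ℝ) ≤ KB * B' := by
    intro S hS
    obtain ⟨hp, hprod⟩ := hSS S hS
    have hprodn : (∏ p ∈ S, (p : ℝ)) ≤ n := by
      obtain ⟨t, ht, rfl⟩ := Finset.mem_image.1 hS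
      refine (cq_rad_le (hT t ht).1 l (hD t ht).1).trans ?_
      exact_mod_cast (hT t ht).2.1
    obtain ⟨MM, m1, m2, m3⟩ := exists_moduli (2 * q) (by omega) H hH0 S hp
    have hsub : T.filter (fun t => (D t).primeFactors = S) ⊆
        (MM.filter (fun M : ℕ => H / (2 * q) ≤ Real.log M)).biUnion (fun M : ℕ =>
          T.filter (fun t => M ∣ comp t l)) := by
      intro t ht
      obtain ⟨ht1, ht2⟩ := Finset.mem_filter.1 ht
      obtain ⟨a1, a2, a3, a4, a5, a6⟩ := hT t ht1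
      obtain ⟨d1, d2, d3⟩ := hD t ht1
      have hD0 : 0 < D t := Nat.pos_of_dvd_of_pos d1 (comp_pos a1 l)
      have hDle : Real.log (D t) ≤ 3 * H := by
        have h1 : Real.log (D t) ≤ Real.log (comp t l) :=
          Real.log_le_log (by exact_mod_cast hD0)
            (by exact_mod_cast Nat.le_of_dvd (comp_pos a1 l) d1)
        have h2 := log_comp_le a1 l
        linarith
      obtain ⟨M, b1, b2, b3⟩ := m3 (D t) hD0.ne' ht2 hDle
      push_cast at b3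
      refine Finset.mem_biUnion.2 ⟨M, Finset.mem_filter.2 ⟨b1, ?_⟩,
        Finset.mem_filter.2 ⟨ht1, b2.trans d1⟩⟩
      have e : H / q - H / (2 * q) = H / (2 * q) := by
        field_simp
        ring
      linarith
    have hone : ∀ M ∈ MM.filter (fun M : ℕ => H / (2 * q) ≤ Real.log M),
        ((T.filter (fun t => M ∣ comp t l)).card : ℝ) ≤ B' := by
      intro M hM
      obtain ⟨hM1, hM2⟩ := Finset.mem_filter.1 hM
      refine le_trans (cq_class l _ hw hq hx hr hH hWr hW1 hW2 (m2 M hM1).1 hM2 ?_) hB'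
      intro t ht
      obtain ⟨ht1, ht2⟩ := Finset.mem_filter.1 ht
      obtain ⟨a1, a2, a3, a4, a5, a6⟩ := hT t ht1
      refine ⟨a1, ?_, a3, a4, a5, ht2⟩
      rw [hn]
      apply Real.log_le_log
      · unfold rd
        exact_mod_cast Finset.prod_pos fun p hp => (Nat.prime_of_mem_primeFactors hp).pos
      · exact_mod_cast a2
    calc ((T.filter (fun t => (D t).primeFactors = S)).card : ℝ)
        ≤ (((MM.filter (fun M : ℕ => H / (2 * q) ≤ Real.log M)).biUnion (fun M : ℕ =>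
            T.filter (fun t => M ∣ comp t l))).card : ℝ) := by
          exact_mod_cast Finset.card_le_card hsub
      _ ≤ ∑ M ∈ MM.filter (fun M : ℕ => H / (2 * q) ≤ Real.log M),
            ((T.filter (fun t => M ∣ comp t l)).card : ℝ) := by
          exact_mod_cast Finset.card_biUnion_le
      _ ≤ ∑ _M ∈ MM.filter (fun M : ℕ => H / (2 * q) ≤ Real.log M), B' := Finset.sum_le_sum hone
      _ = (MM.filter (fun M : ℕ => H / (2 * q) ≤ Real.log M)).card * B' := by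
          rw [Finset.sum_const, nsmul_eq_mul]
      _ ≤ MM.card * B' := by
          apply mul_le_mul_of_nonneg_right _ hB'0
          exact_mod_cast Finset.card_filter_le _ _
      _ ≤ KB * B' := mul_le_mul_of_nonneg_right (m1.trans (hKB S hp hprodn)) hB'0
  calc (T.card : ℝ) = ∑ S ∈ T.image (fun t => (D t).primeFactors),
        ((T.filter (fun t => (D t).primeFactors = S)).card : ℝ) := by
        rw [Finset.card_eq_sum_card_image (fun t => (D t).primeFactors) T]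
        push_cast
        rfl
    _ ≤ ∑ _S ∈ T.image (fun t => (D t).primeFactors), KB * B' := Finset.sum_le_sum hfib
    _ = ((T.image (fun t => (D t).primeFactors)).card : ℝ) * (KB * B') := by
        rw [Finset.sum_const, nsmul_eq_mul]
    _ ≤ 2 ^ F0.card * z * (KB * B') :=
        mul_le_mul_of_nonneg_right hcount (mul_nonneg hKB0 hB'0)

/-- Triples of one class with a large divisor of small radical. -/
theorem count_divisorF (q : ℕ) (hq : 1 ≤ q) (ε : ℝ) (hε : 0 < ε) (hε1 : ε ≤ 1) :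
    ∃ η K' R0 : ℝ, 0 < η ∧ η ≤ 1 ∧ 1 ≤ K' ∧ 1 ≤ R0 ∧ ∀ᶠ n : ℕ in atTop,
      ∀ (z H : ℝ) (r : ℕ) (F0 : Finset ℕ) (T : Finset (ℕ × ℕ)), 0 ≤ z → R0 ≤ r → K' * r * Real.log n ≤ H →
      (∀ t ∈ T, IsT t ∧ rd t ≤ n ∧ ht t ≤ 2 * H ∧ Appr r (η * r * Real.log n) t ∧
        ∃ (l : Fin 3) (D : ℕ), D ∣ comp t l ∧ (∏ p ∈ D.primeFactors \ F0, (p : ℝ)) ≤ z ∧
          H / q ≤ Real.log D) →
      (T.card : ℝ) ≤ 2 ^ F0.card * z * (n : ℝ) ^ ε := by
  classical
  have hq' : (1 : ℝ) ≤ q := by exact_mod_cast hq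
  obtain ⟨w, hw⟩ : ∃ w : ℕ, w = ⌈16 / ε⌉₊ := ⟨_, rfl⟩
  have hw16 : 16 / ε ≤ w := hw ▸ Nat.le_ceil _
  have hw1 : (1 : ℝ) ≤ w := by
    refine le_trans ?_ hw16
    rw [le_div_iff₀ hε]
    linarith
  have hw1' : 1 ≤ w := by exact_mod_cast hw1
  have hwε : 16 ≤ (w : ℝ) * ε := by
    rwa [div_le_iff₀ hε] at hw16
  have hw2 : (1 : ℝ) ≤ (w : ℝ) ^ 2 := one_le_pow₀ hw1
  have hw2q : (1 : ℝ) ≤ (w : ℝ) ^ 2 * q := by nlinarith
  obtain ⟨η, hη⟩ : ∃ η : ℝ, η = ε / (4 * 10 ^ 6 * (w ^ 2 * q)) := ⟨_, rfl⟩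
  have hη0 : 0 < η := by rw [hη]; positivity
  have hηw : η * (4 * 10 ^ 6 * (w ^ 2 * q)) = ε := by rw [hη]; field_simp
  have hη1 : η ≤ 1 := by nlinarith
  have hηw2 : 884736 * ((w : ℝ) ^ 2 * q) * η ≤ 1 := by nlinarith
  have hB32 := BconD_ge_one (32 * q)
  have h2w : (1 : ℝ) ≤ 2 ^ (w + 1) := one_le_pow₀ (by norm_num)
  have hB1 : (1 : ℝ) ≤ 2 ^ (w + 1) * BconD (32 * q) := by nlinarith
  obtain ⟨K1, hK11, hK1⟩ := cb_pow_card_le (2 ^ (w + 1) * BconD (32 * q)) (ε / 16) hB1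
    (by positivity)
  obtain ⟨K2, hK21, hK2⟩ := cb_pow_card_le (BconD (2 * q)) (ε / 16) (BconD_ge_one _)
    (by positivity)
  have hwq : (1 : ℝ) ≤ w * q := by nlinarith
  refine ⟨η, 1000 * (w * q), 6000 * (w * q), hη0, hη1, by linarith, by linarith, ?_⟩
  have hlog : Tendsto (fun n : ℕ => Real.log n) atTop atTop :=
    Real.tendsto_log_atTop.comp tendsto_natCast_atTop_atTop
  have hpow : Tendsto (fun n : ℕ => (n : ℝ) ^ (3 * ε / 4)) atTop atTop :=
    (tendsto_rpow_atTop (by positivity)).comp tendsto_natCast_atTop_atTop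
  filter_upwards [eventually_ge_atTop 1, hlog.eventually (eventually_ge_atTop 1),
    hlog.eventually (eventually_ge_atTop (1 / (2 * w * η))),
    hpow.eventually (eventually_ge_atTop (3 * (K1 * K2)))] with n hn1 hx1 hx2 hn3 z H r F0 T hz
    hr hH hT
  have hn1' : (1 : ℝ) ≤ n := by exact_mod_cast hn1
  have hn0 : (0 : ℝ) < n := by linarith
  have hr0 : (0 : ℝ) < r := by linarith
  obtain ⟨x, hx⟩ : ∃ x : ℝ, x = Real.log n := ⟨_, rfl⟩
  rw [← hx] at hx1 hx2 hH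
  have hx0 : 0 < x := by linarith
  have hwη : 1 ≤ 2 * w * η * x := by
    rwa [div_le_iff₀ (by positivity), mul_comm] at hx2
  have hrx0 : 0 < r * x := by positivity
  have hW1 : η * r * x ≤ r * x := by nlinarith
  have hWr : (r : ℝ) ≤ 2 * w * (η * r * x) := by nlinarith
  have hW2 : 884736 * ((w : ℝ) ^ 2 * q) * (η * r * x) ≤ r * x := by
    calc 884736 * ((w : ℝ) ^ 2 * q) * (η * r * x) =
        (884736 * ((w : ℝ) ^ 2 * q) * η) * (r * x) := by ring
      _ ≤ 1 * (r * x) := mul_le_mul_of_nonneg_right hηw2 hrx0.le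
      _ = r * x := one_mul _
  have hexp : Real.exp (2 * x / w) ≤ (n : ℝ) ^ (ε / 8) := by
    rw [Real.rpow_def_of_pos hn0, ← hx]
    apply Real.exp_le_exp.2
    rw [div_le_iff₀ (by linarith)]
    nlinarith
  obtain ⟨nn, hnn⟩ : ∃ nn : ℕ, nn = T.sup (fun t => (N t).primeFactors.card) := ⟨_, rfl⟩
  have hnnT : ∀ t ∈ T, (N t).primeFactors.card ≤ nn := fun t ht => by
    rw [hnn]; exact Finset.le_sup (f := fun t => (N t).primeFactors.card) ht
  have hKn : (2 ^ (w + 1) * BconD (32 * q)) ^ nn ≤ K1 * (n : ℝ) ^ (ε / 16) := by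
    rcases T.eq_empty_or_nonempty with rfl | hne
    · rw [Finset.sup_empty] at hnn
      subst hnn
      have h1 : (1 : ℝ) ≤ (n : ℝ) ^ (ε / 16) := Real.one_le_rpow hn1' (by positivity)
      simp only [Nat.bot_eq_zero, pow_zero]
      nlinarith
    · obtain ⟨t, ht, hte⟩ := Finset.exists_mem_eq_sup T hne (fun t => (N t).primeFactors.card)
      rw [hnn, hte]
      refine (hK1 _ fun p hp => (Nat.prime_of_mem_primeFactors hp).two_le).trans ?_
      apply mul_le_mul_of_nonneg_left _ (by linarith)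
      apply Real.rpow_le_rpow (Finset.prod_nonneg fun _ _ => Nat.cast_nonneg _) _ (by positivity)
      have h1 : ((rd t : ℕ) : ℝ) ≤ n := by exact_mod_cast (hT t ht).2.1
      unfold rd at h1
      push_cast at h1
      exact h1
  have hKB : ∀ S : Finset ℕ, (∀ p ∈ S, p.Prime) → (∏ p ∈ S, (p : ℝ)) ≤ n →
      BconD (2 * q) ^ S.card ≤ K2 * (n : ℝ) ^ (ε / 16) := by
    intro S hS hprod
    refine (hK2 S fun p hp => (hS p hp).two_le).trans ?_
    apply mul_le_mul_of_nonneg_left _ (by linarith)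
    exact Real.rpow_le_rpow (Finset.prod_nonneg fun _ _ => Nat.cast_nonneg _) hprod (by positivity)
  have hB' : (2 ^ (w + 1) * BconD (32 * q)) ^ nn * Real.exp (2 * x / w) ≤
      K1 * (n : ℝ) ^ (ε / 16) * (n : ℝ) ^ (ε / 8) :=
    mul_le_mul hKn hexp (Real.exp_pos _).le (by positivity)
  obtain ⟨Z, hZ⟩ : ∃ Z : ℝ, Z = 2 ^ F0.card * z := ⟨_, rfl⟩
  have hZ0 : 0 ≤ Z := by rw [hZ]; positivity
  have hlab : ∀ l : Fin 3, ((T.filter (fun t => ∃ D : ℕ, D ∣ comp t l ∧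
      (∏ p ∈ D.primeFactors \ F0, (p : ℝ)) ≤ z ∧ H / q ≤ Real.log D)).card : ℝ) ≤ Z *
      (K2 * (n : ℝ) ^ (ε / 16) * (K1 * (n : ℝ) ^ (ε / 16) * (n : ℝ) ^ (ε / 8))) := by
    intro l
    rw [hZ]
    refine cq_labelF (H := H) (W := η * r * x) l F0 _ hw1' hq hx1 hr ?_ hWr hW1 hW2 hx hn1 hz hB' hKB ?_
    · calc 1000 * (w * q) * (r * x) = 1000 * (w * q) * r * x := by ring
        _ ≤ H := hH
    intro t ht
    obtain ⟨ht1, ht2⟩ := Finset.mem_filter.1 ht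
    obtain ⟨a1, a2, a3, a4, a5⟩ := hT t ht1
    exact ⟨a1, a2, a3, hx ▸ a4, hnnT t ht1, ht2⟩
  have hcov : T ⊆ (Finset.univ : Finset (Fin 3)).biUnion (fun l =>
      T.filter (fun t => ∃ D : ℕ, D ∣ comp t l ∧
      (∏ p ∈ D.primeFactors \ F0, (p : ℝ)) ≤ z ∧ H / q ≤ Real.log D)) := by
    intro t ht
    obtain ⟨_, _, _, _, l, hl⟩ := hT t ht
    exact Finset.mem_biUnion.2 ⟨l, Finset.mem_univ l, Finset.mem_filter.2 ⟨ht, hl⟩⟩
  have hfin : (T.card : ℝ) ≤ 3 * (Z *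
      (K2 * (n : ℝ) ^ (ε / 16) * (K1 * (n : ℝ) ^ (ε / 16) * (n : ℝ) ^ (ε / 8)))) := by
    calc (T.card : ℝ) ≤ (((Finset.univ : Finset (Fin 3)).biUnion (fun l =>
          T.filter (fun t => ∃ D : ℕ, D ∣ comp t l ∧
            (∏ p ∈ D.primeFactors \ F0, (p : ℝ)) ≤ z ∧ H / q ≤ Real.log D))).card : ℝ) := by
          exact_mod_cast Finset.card_le_card hcov
      _ ≤ ∑ l : Fin 3, ((T.filter (fun t => ∃ D : ℕ, D ∣ comp t l ∧
            (∏ p ∈ D.primeFactors \ F0, (p : ℝ)) ≤ z ∧ H / q ≤ Real.log D)).card : ℝ) := by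
          exact_mod_cast Finset.card_biUnion_le
      _ ≤ ∑ _l : Fin 3, (Z *
          (K2 * (n : ℝ) ^ (ε / 16) * (K1 * (n : ℝ) ^ (ε / 16) * (n : ℝ) ^ (ε / 8)))) :=
          Finset.sum_le_sum fun l _ => hlab l
      _ = _ := by
          rw [Finset.sum_const, Finset.card_univ, Fintype.card_fin, nsmul_eq_mul]
          norm_num
  refine hfin.trans ?_
  have e1 : 3 * (Z *
      (K2 * (n : ℝ) ^ (ε / 16) * (K1 * (n : ℝ) ^ (ε / 16) * (n : ℝ) ^ (ε / 8)))) =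
      Z * (3 * (K1 * K2) * (n : ℝ) ^ (ε / 4)) := by
    have e : (ε / 4 : ℝ) = ε / 16 + (ε / 16 + ε / 8) := by ring
    rw [e, Real.rpow_add hn0, Real.rpow_add hn0]
    ring
  rw [e1, ← hZ]
  apply mul_le_mul_of_nonneg_left _ hZ0
  calc 3 * (K1 * K2) * (n : ℝ) ^ (ε / 4)
      ≤ (n : ℝ) ^ (3 * ε / 4) * (n : ℝ) ^ (ε / 4) :=
        mul_le_mul_of_nonneg_right hn3 (by positivity)
    _ = (n : ℝ) ^ ε := by
        rw [← Real.rpow_add hn0]
        congr 1
        ring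

/-- The triple is unbalanced, or a member has a large divisor of radical at most `z`. -/
def SmallF (F0 : Finset ℕ) (δ z : ℝ) (t : ℕ × ℕ) : Prop :=
  Real.log t.1 ≤ (1 - δ) * ht t ∨
    ∃ (l : Fin 3) (D : ℕ), D ∣ comp t l ∧ (∏ p ∈ D.primeFactors \ F0, (p : ℝ)) ≤ z ∧
      δ * ht t ≤ Real.log D

/-- Both kinds of triples of one class. -/
theorem count_classF (δ ε : ℝ) (hδ : 0 < δ) (hδ1 : δ ≤ 1) (hε : 0 < ε) (hε1 : ε ≤ 1) :
    ∃ η K' R0 : ℝ, 0 < η ∧ η ≤ 1 ∧ 1 ≤ K' ∧ 1 ≤ R0 ∧ ∀ᶠ n : ℕ in atTop,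
      ∀ (z H : ℝ) (r : ℕ) (F0 : Finset ℕ) (T : Finset (ℕ × ℕ)), 1 ≤ z → R0 ≤ r → K' * r * Real.log n ≤ H →
      (∀ t ∈ T, IsT t ∧ rd t ≤ n ∧ H ≤ ht t ∧ ht t ≤ 2 * H ∧
        Appr r (η * r * Real.log n) t ∧ SmallF F0 δ z t) →
      (T.card : ℝ) ≤ 2 * (2 ^ F0.card * z * (n : ℝ) ^ ε) := by
  classical
  obtain ⟨q, hq⟩ : ∃ q : ℕ, q = ⌈1 / δ⌉₊ := ⟨_, rfl⟩
  have hq0 : 1 / δ ≤ q := hq ▸ Nat.le_ceil _
  have hq1 : (1 : ℝ) ≤ q := by
    refine le_trans ?_ hq0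
    rw [le_div_iff₀ hδ]
    linarith
  have hq1' : 1 ≤ q := by exact_mod_cast hq1
  have hqδ : 1 ≤ δ * q := by
    rw [div_le_iff₀ hδ] at hq0
    linarith
  obtain ⟨η1, K1, R1, hη1, hη1', hK1, hR1, h1⟩ := count_divisorF q hq1' ε hε hε1
  obtain ⟨η2, K2, R2, hη2, hη2', hK2, hR2, h2⟩ := Pabc13.count_unbalanced_gen δ ε hδ hδ1 hε hε1
  refine ⟨min η1 η2, max K1 K2, max R1 R2, lt_min hη1 hη2, (min_le_left _ _).trans hη1',
    le_max_of_le_left hK1, le_max_of_le_left hR1, ?_⟩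
  filter_upwards [h1, h2, eventually_ge_atTop 1] with n h1 h2 hn z H r F0 T hz hR hK
    hT
  have hn1 : (1 : ℝ) ≤ n := by exact_mod_cast hn
  have hx : 0 ≤ Real.log (n : ℝ) := Real.log_nonneg hn1
  have hr0 : (0 : ℝ) ≤ r := Nat.cast_nonneg r
  have hrx : 0 ≤ (r : ℝ) * Real.log n := mul_nonneg hr0 hx
  have hK10 : 0 ≤ max K1 K2 * r * Real.log n := by
    rw [mul_assoc]
    exact mul_nonneg (le_trans zero_le_one (le_max_of_le_left hK1)) hrx
  have hH0 : 0 ≤ H := hK10.trans hK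
  have e1 := h1 z H r F0 (T.filter (fun t => ¬ Real.log t.1 ≤ (1 - δ) * ht t)) (by linarith)
    ((le_max_left _ _).trans hR)
    (by
      refine le_trans ?_ hK
      rw [mul_assoc, mul_assoc]
      exact mul_le_mul_of_nonneg_right (le_max_left _ _) hrx) (by
      intro t ht'
      rw [Finset.mem_filter] at ht'
      obtain ⟨a1, a2, a3, a4, ⟨F, a5⟩, a6⟩ := hT t ht'.1
      refine ⟨a1, a2, a4, ⟨F, a5.trans ?_⟩, ?_⟩
      · rw [mul_assoc, mul_assoc]
        exact mul_le_mul_of_nonneg_right (min_le_left _ _) hrx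
      · rcases a6 with a6 | ⟨l, D, a6, a7, a8⟩
        · exact absurd a6 ht'.2
        · refine ⟨l, D, a6, a7, le_trans ?_ a8⟩
          rw [div_le_iff₀ (by linarith)]
          have : H ≤ ht t * (δ * q) := by nlinarith
          linarith)
  have e2 := h2 H r (T.filter (fun t => Real.log t.1 ≤ (1 - δ) * ht t))
    ((le_max_right _ _).trans hR)
    (by
      refine le_trans ?_ hK
      rw [mul_assoc, mul_assoc]
      exact mul_le_mul_of_nonneg_right (le_max_right _ _) hrx) (by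
      intro t ht'
      rw [Finset.mem_filter] at ht'
      obtain ⟨a1, a2, a3, a4, ⟨F, a5⟩, _⟩ := hT t ht'.1
      refine ⟨a1, a3, a4, ht'.2, F, a5.trans ?_⟩
      rw [mul_assoc, mul_assoc]
      exact mul_le_mul_of_nonneg_right (min_le_right _ _) hrx)
  have hcard : (T.card : ℝ) = (T.filter (fun t => Real.log t.1 ≤ (1 - δ) * ht t)).card +
      (T.filter (fun t => ¬ Real.log t.1 ≤ (1 - δ) * ht t)).card := by
    exact_mod_cast (Finset.card_filter_add_card_filter_not (s := T)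
      (fun t => Real.log t.1 ≤ (1 - δ) * ht t)).symm
  have e3 : (n : ℝ) ^ ε ≤ 2 ^ F0.card * z * (n : ℝ) ^ ε := by
    have h0 : 0 ≤ (n : ℝ) ^ ε := by positivity
    have h1 : (1 : ℝ) ≤ 2 ^ F0.card := one_le_pow₀ (by norm_num)
    have h2 : (1 : ℝ) ≤ 2 ^ F0.card * z := by nlinarith
    nlinarith
  linarith

/-- The main counting theorem. -/
theorem main_shapeF (ε δ0 : ℝ) (hε : 0 < ε) (hδ00 : 0 < δ0) (hδ01 : δ0 ≤ 1) :
    ∃ η C : ℝ, 0 < η ∧ 1 ≤ C ∧ ∀ᶠ n : ℕ in atTop, ∀ (z : ℝ) (F0 : Finset ℕ)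
      (T : Finset (ℕ × ℕ)), 1 ≤ z →
      (∀ t ∈ T, IsT t ∧ SmallF F0 δ0 z t ∧
        ∃ k, Shape n η k (N t) ∧ C ^ (k + 1) * Real.log n ≤ ht t) →
      2 * (T.card : ℝ) ≤ 2 ^ F0.card * z * (n : ℝ) ^ ε := by
  classical
  set δ : ℝ := min (ε / 4) 1 with hδ
  have hδ0 : 0 < δ := lt_min (by positivity) one_pos
  have hδ1 : δ ≤ 1 := min_le_right _ _
  have hδε : δ ≤ ε / 4 := min_le_left _ _
  obtain ⟨η3, K', R0, hη3, hη31, hK', hR0, hclass⟩ := count_classF δ0 δ hδ00 hδ01 hδ0 hδ1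
  obtain ⟨Q, C0, hQ, hC0, hstruct⟩ := struct_approx η3 K' R0 hη3 hη31 hK' hR0
  obtain ⟨m0, hm0⟩ := exists_nat_gt (3 / δ)
  have hQ1 : (1 : ℝ) ≤ Q := by exact_mod_cast hQ
  set C : ℝ := 2 * C0 * (Q : ℝ) ^ (m0 + 2) with hC
  have hQm : (1 : ℝ) ≤ (Q : ℝ) ^ (m0 + 2) := one_le_pow₀ hQ1
  have hC1 : 1 ≤ C := by rw [hC]; nlinarith
  refine ⟨η3 / 2, C, by positivity, hC1, ?_⟩
  have hev : ∀ᶠ n : ℕ in atTop, 2 * ((5 * Real.log n + 1) * 2) ≤ (n : ℝ) ^ δ := by
    filter_upwards [Pabc9.ev_poly_log 20 1 δ hδ0,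
      (Real.tendsto_log_atTop.comp tendsto_natCast_atTop_atTop).eventually
        (eventually_ge_atTop 0)] with n hn h0
    simp only [Function.comp_apply] at h0
    refine le_trans ?_ hn
    rw [pow_one]
    linarith
  filter_upwards [hclass, height_three, hev, eventually_ge_atTop 3] with n hclass hht hev hn3 z F0 T
    hz hT
  have hn1 : (1 : ℝ) ≤ n := by
    have : 1 ≤ n := by omega
    exact_mod_cast this
  have hn0 : (0 : ℝ) < n := by linarith
  set X : ℝ := Real.log n with hX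
  have hX1 : 1 ≤ X := by
    rw [hX, Real.le_log_iff_exp_le hn0]
    have h1 := Real.exp_one_lt_d9
    have h2 : (3 : ℝ) ≤ n := by exact_mod_cast hn3
    linarith
  have hX0 : 0 < X := by linarith
  set I : ℕ := ⌊5 * X⌋₊ + 1 with hI
  set J : ℕ := ⌊(n : ℝ) ^ δ⌋₊ with hJ
  set ρ : ℕ → ℕ → ℕ := fun i j => ⌊(2 : ℝ) ^ i / (K' * X * j)⌋₊ with hρ
  set G : ℕ × ℕ → Finset (ℕ × ℕ) := fun ij => T.filter (fun t =>
    (2 : ℝ) ^ ij.1 ≤ ht t ∧ ht t ≤ 2 * 2 ^ ij.1 ∧ R0 ≤ (ρ ij.1 ij.2 : ℝ) ∧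
      Appr (ρ ij.1 ij.2) (η3 * (ρ ij.1 ij.2 : ℝ) * X) t) with hG
  have hcov : T ⊆ (Finset.range I ×ˢ Finset.Icc 1 J).biUnion G := by
    intro t ht'
    obtain ⟨hIt, _, k, hshape, hbig⟩ := hT t ht'
    have hrd := rd_le_of_shape hshape
    have hh3 := hht t hIt hrd
    have hCk : (1 : ℝ) ≤ C ^ (k + 1) := one_le_pow₀ hC1
    have hht1 : 1 ≤ ht t := by nlinarith
    -- the dyadic class
    set f : ℕ := ⌊ht t⌋₊ with hf
    have hf1 : 1 ≤ f := by
      rw [hf, Nat.one_le_floor_iff]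
      exact hht1
    set i : ℕ := Nat.log 2 f with hi
    have hi1 : (2 : ℝ) ^ i ≤ ht t := by
      have h1 : 2 ^ i ≤ f := Nat.pow_log_le_self 2 (by omega)
      have h2 : ((2 ^ i : ℕ) : ℝ) ≤ f := by exact_mod_cast h1
      push_cast at h2
      exact h2.trans (Nat.floor_le (by linarith))
    have hi2 : ht t ≤ 2 * 2 ^ i := by
      have h1 : f < 2 ^ (i + 1) := Nat.lt_pow_succ_log_self (by norm_num) f
      have h2 : ((f + 1 : ℕ) : ℝ) ≤ ((2 ^ (i + 1) : ℕ) : ℝ) := by exact_mod_cast h1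
      push_cast at h2
      have h3 := (Nat.lt_floor_add_one (ht t)).le
      rw [← hf] at h3
      have h4 : (2 : ℝ) ^ (i + 1) = 2 * 2 ^ i := by ring
      linarith
    have hiI : i < I := by
      have h1 : (2 : ℝ) ^ i ≤ (n : ℝ) ^ 3 := hi1.trans hh3
      have h2 := Real.log_le_log (by positivity) h1
      rw [Real.log_pow, Real.log_pow, ← hX] at h2
      have h3 := Real.log_two_gt_d9
      have h4 : (i : ℝ) ≤ 5 * X := by
        push_cast at h2
        nlinarith [Nat.cast_nonneg (α := ℝ) i]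
      have h5 : i ≤ ⌊5 * X⌋₊ := Nat.le_floor h4
      omega
    obtain ⟨s, x, e, hs, hx, hN, hrads, hle⟩ := hshape
    -- apply the structure lemma
    have hradpos := rad_pos s
    have hxpos : ∀ i, (0 : ℝ) < x i := fun i => by exact_mod_cast hx i
    have hsumx : ∑ i, Real.log (x i) ≤ X := by
      have h1 : (∏ i, x i) ≤ n := (Nat.le_mul_of_pos_left _ hradpos).trans hle
      have h2 : ((∏ i, x i : ℕ) : ℝ) ≤ n := by exact_mod_cast h1
      have h3 : (0 : ℝ) < ((∏ i, x i : ℕ) : ℝ) := by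
        exact_mod_cast Finset.prod_pos fun i _ => hx i
      have h4 := Real.log_le_log h3 h2
      push_cast at h4
      rwa [Real.log_prod (fun i _ => (hxpos i).ne')] at h4
    have hradlog : Real.log ((∏ p ∈ s.primeFactors, p : ℕ) : ℝ) ≤ η3 / 2 * X := by
      have h1 := Real.log_le_log (by exact_mod_cast hradpos) hrads
      rwa [Real.log_rpow hn0] at h1
    have hlogN : Real.log (N t : ℝ) ≤ 6 * 2 ^ i := by
      have := log_N_le hIt
      linarith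
    have hQk : C0 * (Q : ℝ) ^ (2 * k) * X ≤ 2 ^ i := by
      have h1 : 2 * C0 * (Q : ℝ) ^ (2 * k) ≤ C ^ (k + 1) := by
        rw [hC, mul_pow, ← pow_mul]
        have h2 : (2 * C0) ≤ (2 * C0) ^ (k + 1) := by
          have h3 : 1 ≤ (2 * C0) ^ k := one_le_pow₀ (by linarith)
          rw [pow_succ]
          nlinarith
        have h4 : (Q : ℝ) ^ (2 * k) ≤ (Q : ℝ) ^ ((m0 + 2) * (k + 1)) := by
          apply pow_le_pow_right₀ hQ1
          nlinarith
        calc 2 * C0 * (Q : ℝ) ^ (2 * k) ≤ (2 * C0) ^ (k + 1) * (Q : ℝ) ^ (2 * k) :=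
              mul_le_mul_of_nonneg_right h2 (by positivity)
          _ ≤ (2 * C0) ^ (k + 1) * (Q : ℝ) ^ ((m0 + 2) * (k + 1)) :=
              mul_le_mul_of_nonneg_left h4 (by positivity)
      have h2 : 2 * C0 * (Q : ℝ) ^ (2 * k) * X ≤ 2 * 2 ^ i := by
        calc 2 * C0 * (Q : ℝ) ^ (2 * k) * X ≤ C ^ (k + 1) * X :=
              mul_le_mul_of_nonneg_right h1 hX0.le
          _ ≤ ht t := hbig
          _ ≤ _ := hi2
      linarith
    obtain ⟨j, hj1, hjQ, hjR, F, hF⟩ := hstruct k x e s (N t) X (2 ^ i) hs hx hN hX1 hsumx hradlog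
      hlogN hQk
    have hjJ : j ≤ J := by
      have h1 : ((Q : ℝ) ^ k) ^ m0 ≤ (n : ℝ) ^ 3 := by
        have h2 : ((Q : ℝ) ^ k) ^ m0 ≤ C ^ (k + 1) := by
          rw [hC, mul_pow, ← pow_mul, ← pow_mul]
          have h3 : (1 : ℝ) ≤ (2 * C0) ^ (k + 1) := one_le_pow₀ (by linarith)
          have h4 : (Q : ℝ) ^ (k * m0) ≤ (Q : ℝ) ^ ((m0 + 2) * (k + 1)) := by
            apply pow_le_pow_right₀ hQ1
            nlinarith
          have h5 : (0 : ℝ) ≤ (Q : ℝ) ^ ((m0 + 2) * (k + 1)) := by positivity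
          nlinarith
        have h3 : C ^ (k + 1) ≤ C ^ (k + 1) * X := by nlinarith
        linarith
      have hm0pos : (0 : ℝ) < m0 := lt_trans (by positivity) hm0
      have h2 : (Q : ℝ) ^ k ≤ (n : ℝ) ^ δ := by
        have h3 : ((Q : ℝ) ^ k) ^ m0 ≤ ((n : ℝ) ^ δ) ^ m0 := by
          refine h1.trans ?_
          rw [← Real.rpow_natCast (n : ℝ) 3, ← Real.rpow_natCast ((n : ℝ) ^ δ) m0,
            ← Real.rpow_mul hn0.le]
          apply Real.rpow_le_rpow_of_exponent_le hn1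
          rw [div_lt_iff₀ hδ0] at hm0
          push_cast
          nlinarith
        have hm0' : m0 ≠ 0 := by
          intro h
          rw [h] at hm0pos
          simp at hm0pos
        exact le_of_pow_le_pow_left₀ hm0' (by positivity) h3
      have h4 : (j : ℝ) ≤ (n : ℝ) ^ δ := by
        have h5 : (j : ℝ) ≤ (Q : ℝ) ^ k := by exact_mod_cast hjQ
        exact h5.trans h2
      exact Nat.le_floor h4
    rw [Finset.mem_biUnion]
    refine ⟨(i, j), ?_, ?_⟩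
    · rw [Finset.mem_product, Finset.mem_range, Finset.mem_Icc]
      exact ⟨hiI, hj1, hjJ⟩
    · rw [hG, Finset.mem_filter]
      exact ⟨ht', hi1, hi2, hjR, F, hF⟩
  obtain ⟨Z, hZ⟩ : ∃ Z : ℝ, Z = 2 ^ F0.card * z := ⟨_, rfl⟩
  have hGcard : ∀ ij ∈ Finset.range I ×ˢ Finset.Icc 1 J,
      ((G ij).card : ℝ) ≤ 2 * (Z * (n : ℝ) ^ δ) := by
    rintro ⟨i, j⟩ hij
    rw [Finset.mem_product, Finset.mem_Icc] at hij
    by_cases hR : R0 ≤ (ρ i j : ℝ)
    · rw [hZ]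
      refine hclass z (2 ^ i) (ρ i j) F0 (G (i, j)) hz hR ?_ ?_
      · have hj1 : (1 : ℝ) ≤ j := by exact_mod_cast hij.2.1
        have h1 : (ρ i j : ℝ) ≤ 2 ^ i / (K' * X * j) := Nat.floor_le (by positivity)
        have hKX : 0 < K' * X * j := by positivity
        rw [le_div_iff₀ hKX] at h1
        have h2 : (ρ i j : ℝ) * (K' * X) ≤ (ρ i j : ℝ) * (K' * X * j) := by
          apply mul_le_mul_of_nonneg_left _ (Nat.cast_nonneg _)
          have : 0 < K' * X := by positivity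
          nlinarith
        calc K' * (ρ i j : ℝ) * X = (ρ i j : ℝ) * (K' * X) := by ring
          _ ≤ 2 ^ i := h2.trans h1
      · intro t ht'
        rw [hG, Finset.mem_filter] at ht'
        obtain ⟨hIt, hsm, k, hshape, _⟩ := hT t ht'.1
        exact ⟨hIt, rd_le_of_shape hshape, ht'.2.1, ht'.2.2.1, ht'.2.2.2.2, hsm⟩
    · have : G (i, j) = ∅ := by
        rw [hG]
        apply Finset.filter_false_of_mem
        intro t _ h
        exact hR h.2.2.1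
      rw [this]
      simp only [Finset.card_empty, Nat.cast_zero]
      rw [hZ]
      positivity
  have h1 : (T.card : ℝ) ≤ (I * J) * (2 * (Z * (n : ℝ) ^ δ)) := by
    calc (T.card : ℝ) ≤ (((Finset.range I ×ˢ Finset.Icc 1 J).biUnion G).card : ℝ) := by
          exact_mod_cast Finset.card_le_card hcov
      _ ≤ ∑ ij ∈ Finset.range I ×ˢ Finset.Icc 1 J, ((G ij).card : ℝ) := by
          exact_mod_cast Finset.card_biUnion_le
      _ ≤ ∑ _ij ∈ Finset.range I ×ˢ Finset.Icc 1 J, 2 * (Z * (n : ℝ) ^ δ) :=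
          Finset.sum_le_sum hGcard
      _ = (I * J) * (2 * (Z * (n : ℝ) ^ δ)) := by
          rw [Finset.sum_const, Finset.card_product, Finset.card_range, Nat.card_Icc,
            nsmul_eq_mul]
          push_cast
          norm_num
  have hIle : (I : ℝ) ≤ 5 * X + 1 := by
    rw [hI]
    push_cast
    have := Nat.floor_le (show 0 ≤ 5 * X by positivity)
    linarith
  have hJle : (J : ℝ) ≤ (n : ℝ) ^ δ := Nat.floor_le (by positivity)
  have hI0 : (0 : ℝ) ≤ I := Nat.cast_nonneg I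
  have hJ0 : (0 : ℝ) ≤ J := Nat.cast_nonneg J
  have hz0 : 0 < Z := by rw [hZ]; positivity
  rw [← hZ]
  calc 2 * (T.card : ℝ) ≤ 2 * ((I * J) * (2 * (Z * (n : ℝ) ^ δ))) := by linarith
    _ ≤ 2 * (((5 * X + 1) * (n : ℝ) ^ δ) * (2 * (Z * (n : ℝ) ^ δ))) := by gcongr
    _ = (2 * ((5 * X + 1) * 2)) * (Z * ((n : ℝ) ^ δ * (n : ℝ) ^ δ)) := by ring
    _ ≤ (n : ℝ) ^ δ * (Z * ((n : ℝ) ^ δ * (n : ℝ) ^ δ)) := by gcongr
    _ = Z * (n : ℝ) ^ (3 * δ) := by
        have e : (n : ℝ) ^ (3 * δ) = (n : ℝ) ^ δ * ((n : ℝ) ^ δ * (n : ℝ) ^ δ) := by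
          rw [← Real.rpow_add hn0, ← Real.rpow_add hn0]
          congr 1
          ring
        rw [e]
        ring
    _ ≤ Z * (n : ℝ) ^ ε := by
        apply mul_le_mul_of_nonneg_left _ hz0.le
        apply Real.rpow_le_rpow_of_exponent_le hn1
        linarith


end Pool.Agent.Lib.AbcS
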